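import Pool.Agent.H8.HY.WindowCol

/-!
# Window labellings of blow-ups
-/

set_option autoImplicit false

namespace Pool.Agent.H8.HY

open Finset

/-- A proper edge colouring of the complete graph on `s` vertices with `s - 1` colours,
`s` even. -/
theorem one_factor (s : ℕ) (hs : Even s) : ∃ φ : ℕ → ℕ → ℕ, (∀ i j, φ i j = φ j i) ∧
    (∀ i < s, ∀ j < s, i ≠ j → φ i j < s - 1) ∧
    (∀ i < s, ∀ j < s, ∀ k < s, i ≠ j → i ≠ k → φ i j = φ i k → j = k) := by
  obtain ⟨m, hm⟩ : ∃ m, m = s - 1 := ⟨_, rfl⟩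
  rw [← hm]
  rcases Nat.eq_zero_or_pos s with rfl | hs0
  · exact ⟨fun _ _ => 0, by simp, by simp, by simp⟩
  have hsm : s = m + 1 := by omega
  have hodd : Odd m := by
    rcases Nat.even_or_odd m with h | h
    · exfalso
      rw [hsm, Nat.even_add_one] at hs
      exact hs h
    · exact h
  refine ⟨fun i j => if i = m then (2 * j) % m else if j = m then (2 * i) % m else (i + j) % m,
    ?_, ?_, ?_⟩
  · intro i j
    by_cases hi : i = m <;> by_cases hj : j = m <;> simp [hi, hj, add_comm]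
  · intro i hi j hj hij
    have hm0 : 0 < m := by omega
    dsimp only
    split_ifs <;> exact Nat.mod_lt _ hm0
  · intro i hi j hj k hk hij hik he
    have hm0 : 0 < m := by omega
    dsimp only at he
    by_cases him : i = m
    · rw [if_pos him, if_pos him] at he
      have h1 : 2 * j ≡ 2 * k [MOD m] := he
      have h2 : j ≡ k [MOD m] := by
        refine Nat.ModEq.cancel_left_of_coprime ?_ h1
        rw [Nat.gcd_comm]
        exact Nat.Coprime.gcd_eq_one (Nat.coprime_two_left.2 hodd)
      exact mod_inj (N := m) (s := 0) (by omega) (by omega) (by omega) (by omega) h2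
    · rw [if_neg him, if_neg him] at he
      by_cases hjm : j = m
      · by_cases hkm : k = m
        · omega
        · rw [if_pos hjm, if_neg hkm] at he
          have := mod_inj (N := m) (s := i) (by omega) (by omega) (by omega) (by omega) he
          omega
      · by_cases hkm : k = m
        · rw [if_neg hjm, if_pos hkm] at he
          have := mod_inj (N := m) (s := i) (by omega) (by omega) (by omega) (by omega) he
          omega
        · rw [if_neg hjm, if_neg hkm] at he
          have := mod_inj (N := m) (s := i) (by omega) (by omega) (by omega) (by omega) he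
          omega

/-- Every vertex of `H` is replaced by `s` pairwise nonadjacent vertices. -/
def blowUp {V : Type} (H : SimpleGraph V) (s : ℕ) : SimpleGraph (V × Fin s) where
  Adj a b := H.Adj a.1 b.1
  symm := ⟨fun _ _ h => h.symm⟩
  loopless := ⟨fun a h => H.loopless.irrefl a.1 h⟩

/-- Differences. -/
theorem diff_lt {N a b : ℕ} (hab : a ≠ b) (ha : a < N) (hb : b < N) :
    (b + N - a) % N - 1 + 1 < N := by
  have h0 : (b + N - a) % N < N := Nat.mod_lt _ (by omega)
  have h1 : (b + N - a) % N ≠ 0 := by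
    intro h
    have h2 := mod_inj (N := N) (s := 0 + (b + N - a) - (b + N - a) + 0) (a := 0) (b := 0)
      (by omega) (by omega) (by omega) (by omega) rfl
    rcases lt_or_gt_of_ne hab with h3 | h3
    · have h4 : (b + N - a) % N = b - a := by
        rw [show b + N - a = (b - a) + N by omega, Nat.add_mod_right, Nat.mod_eq_of_lt (by omega)]
      omega
    · rw [Nat.mod_eq_of_lt (by omega)] at h
      omega
  omega

theorem diff_inj {N a b c : ℕ} (hab : a ≠ b) (hac : a ≠ c) (ha : a < N) (hb : b < N) (hc : c < N)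
    (h : (b + N - a) % N - 1 = (c + N - a) % N - 1) : b = c := by
  have h1 : ∀ b, a ≠ b → b < N → (b + N - a) % N ≠ 0 := by
    intro b hab hb h
    rcases lt_or_gt_of_ne hab with h3 | h3
    · have h4 : (b + N - a) % N = b - a := by
        rw [show b + N - a = (b - a) + N by omega, Nat.add_mod_right, Nat.mod_eq_of_lt (by omega)]
      omega
    · rw [Nat.mod_eq_of_lt (by omega)] at h
      omega
  have h2 := h1 b hab hb
  have h3 := h1 c hac hc
  have h4 : (b + N - a) % N = (c + N - a) % N := by omega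
  have h5 := mod_inj (N := N) (s := N - a) (by omega) (by omega) (by omega) (by omega) h4
  omega

/-- Differences with the other orientation. -/
theorem diff_inj' {N a b c : ℕ} (hab : a ≠ b) (hac : a ≠ c) (ha : a < N) (hb : b < N) (hc : c < N)
    (h : (a + N - b) % N - 1 = (a + N - c) % N - 1) : b = c := by
  have h1 : ∀ b, a ≠ b → b < N → (a + N - b) % N ≠ 0 := by
    intro b hab hb h
    rcases lt_or_gt_of_ne hab with h3 | h3
    · rw [Nat.mod_eq_of_lt (by omega)] at h
      omega
    · have h4 : (a + N - b) % N = a - b := by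
        rw [show a + N - b = (a - b) + N by omega, Nat.add_mod_right, Nat.mod_eq_of_lt (by omega)]
      omega
  have h2 := h1 b hab hb
  have h3 := h1 c hac hc
  have h4 : (a + N - b) % N = (a + N - c) % N := by omega
  have h5 := mod_inj (N := N) (s := a + 1) (by omega) (by omega) (by omega) (by omega) h4
  omega

/-- Blow-ups with an even number of copies. -/
theorem blowUp_even {V : Type} (H : SimpleGraph V) (d s : ℕ) (hs : Even s) (hs0 : 1 ≤ s)
    (x : V → ℕ) (hx : ∀ v, x v ≤ d) (hprop : ∀ u v, H.Adj u v → x u ≠ x v)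
    (hloc : ∀ u v w, H.Adj u v → H.Adj u w → v ≠ w → x v ≠ x w) :
    Window (blowUp H s) (s * d) := by
  classical
  obtain ⟨φ, hφ1, hφ2, hφ3⟩ := one_factor s hs
  -- the copies of `H`
  let H' : SimpleGraph (V × Fin s) :=
    { Adj := fun a b => H.Adj a.1 b.1 ∧ a.2 = b.2
      symm := ⟨fun _ _ h => ⟨h.1.symm, h.2.symm⟩⟩
      loopless := ⟨fun a h => H.loopless.irrefl a.1 h.1⟩ }
  -- the other edges
  let t : V × Fin s → V × Fin s → ℕ := fun a b =>
    if a.2 < b.2 then (x b.1 + (d + 1) - x a.1) % (d + 1) - 1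
    else if b.2 < a.2 then (x a.1 + (d + 1) - x b.1) % (d + 1) - 1 else 0
  let g : V × Fin s → V × Fin s → ℕ := fun a b => φ a.2 b.2 * d + t a b
  have ht : ∀ a b, t a b = t b a := by
    intro a b
    simp only [t]
    rcases lt_trichotomy a.2 b.2 with h | h | h
    · rw [if_pos h, if_neg (not_lt.2 h.le), if_pos h]
    · rw [if_neg h.not_lt, if_neg h.symm.not_lt, if_neg h.symm.not_lt, if_neg h.not_lt]
    · rw [if_neg (not_lt.2 h.le), if_pos h, if_pos h]
  have hg : ∀ a b, g a b = g b a := by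
    intro a b
    simp only [g, ht a b, hφ1 (a.2 : ℕ) (b.2 : ℕ)]
  have htlt : ∀ a b, H.Adj a.1 b.1 → t a b < d := by
    intro a b hab
    have e1 := hx a.1
    have e2 := hx b.1
    have e3 := hprop _ _ hab
    simp only [t]
    have hd : 0 < d := by omega
    split_ifs
    · have := diff_lt (N := d + 1) e3 (by omega) (by omega)
      omega
    · have := diff_lt (N := d + 1) e3.symm (by omega) (by omega)
      omega
    · exact hd
  refine insertion (blowUp H s) H' (s * d) (d + 1) ?_ (fun a => x a.1)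
    (fun a => Nat.lt_succ_of_le (hx a.1)) (fun a b hab => hprop _ _ hab) ?_
    (Sym2.lift ⟨g, hg⟩) ?_ ?_
  · have : 1 * d ≤ s * d := Nat.mul_le_mul_right _ hs0
    omega
  · intro a b c hab hac hbc
    refine hloc a.1 b.1 c.1 hab.1 hac.1 (fun h => hbc ?_)
    exact Prod.ext h (hab.2.symm.trans hac.2)
  · intro a b hab hH'
    show g a b + (d + 1) < s * d + 1
    have hne : a.2 ≠ b.2 := fun h => hH' ⟨hab, h⟩
    have e1 := hφ2 a.2 a.2.isLt b.2 b.2.isLt (fun h => hne (Fin.ext h))
    have e2 := htlt a b hab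
    simp only [g]
    obtain ⟨q, rfl⟩ : ∃ q, s = q + 2 := by
      have h1 : (a.2 : ℕ) < s := a.2.isLt
      have h2 : (b.2 : ℕ) < s := b.2.isLt
      have h3 : (a.2 : ℕ) ≠ (b.2 : ℕ) := fun h => hne (Fin.ext h)
      exact ⟨s - 2, by omega⟩
    have e3 : φ a.2 b.2 * d ≤ q * d := Nat.mul_le_mul_right _ (by omega)
    have e4 : (q + 2) * d = q * d + 2 * d := by ring
    omega
  · intro a b c hab hHb hac hHc hbc he
    replace he : g a b = g a c := he
    apply hbc
    have hneb : a.2 ≠ b.2 := fun h => hHb ⟨hab, h⟩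
    have hnec : a.2 ≠ c.2 := fun h => hHc ⟨hac, h⟩
    have e1 := htlt a b hab
    have e2 := htlt a c hac
    have hd : 0 < d := by omega
    have e3 : φ a.2 b.2 = φ a.2 c.2 := by
      have h1 : (φ a.2 b.2 * d + t a b) / d = φ a.2 b.2 := by
        rw [mul_comm, Nat.mul_add_div hd, Nat.div_eq_of_lt e1, add_zero]
      have h2 : (φ a.2 c.2 * d + t a c) / d = φ a.2 c.2 := by
        rw [mul_comm, Nat.mul_add_div hd, Nat.div_eq_of_lt e2, add_zero]
      simp only [g] at he
      rw [← h1, he, h2]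
    have e4 : t a b = t a c := by
      simp only [g, e3] at he
      omega
    have e5 : b.2 = c.2 := Fin.ext (hφ3 a.2 a.2.isLt b.2 b.2.isLt c.2 c.2.isLt
      (fun h => hneb (Fin.ext h)) (fun h => hnec (Fin.ext h)) e3)
    have e6 : x b.1 = x c.1 := by
      have f1 := hx a.1
      have f2 := hx b.1
      have f3 := hx c.1
      simp only [t, ← e5] at e4
      rcases lt_or_gt_of_ne hneb with h | h
      · rw [if_pos h, if_pos h] at e4
        exact diff_inj (N := d + 1) (hprop _ _ hab) (hprop _ _ hac) (by omega) (by omega)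
          (by omega) e4
      · rw [if_neg (not_lt.2 h.le), if_neg (not_lt.2 h.le), if_pos h, if_pos h] at e4
        exact diff_inj' (N := d + 1) (hprop _ _ hab) (hprop _ _ hac) (by omega) (by omega)
          (by omega) e4
    refine Prod.ext ?_ e5
    by_contra hbc'
    exact hloc a.1 b.1 c.1 hab hac hbc' e6

/-- Blow-ups of graphs of class one. -/
theorem blowUp_class_one {V : Type} (H : SimpleGraph V) (d s : ℕ) (hs0 : 1 ≤ s)
    (x : V → ℕ) (hx : ∀ v, x v ≤ d) (hprop : ∀ u v, H.Adj u v → x u ≠ x v)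
    (hloc : ∀ u v w, H.Adj u v → H.Adj u w → v ≠ w → x v ≠ x w)
    (ψ : Sym2 V → ℕ) (hψ1 : ∀ u v, H.Adj u v → ψ s(u, v) < d)
    (hψ2 : ∀ u v w, H.Adj u v → H.Adj u w → v ≠ w → ψ s(u, v) ≠ ψ s(u, w)) :
    Window (blowUp H s) (s * d) := by
  classical
  let H' : SimpleGraph (V × Fin s) :=
    { Adj := fun a b => H.Adj a.1 b.1 ∧ a.2 = b.2
      symm := ⟨fun _ _ h => ⟨h.1.symm, h.2.symm⟩⟩
      loopless := ⟨fun a h => H.loopless.irrefl a.1 h.1⟩ }
  let t : V × Fin s → V × Fin s → ℕ := fun a b =>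
    if x a.1 < x b.1 then ((b.2 : ℕ) + s - a.2) % s - 1
    else if x b.1 < x a.1 then ((a.2 : ℕ) + s - b.2) % s - 1 else 0
  let g : V × Fin s → V × Fin s → ℕ := fun a b => ψ s(a.1, b.1) * (s - 1) + t a b
  have ht : ∀ a b, t a b = t b a := by
    intro a b
    simp only [t]
    rcases lt_trichotomy (x a.1) (x b.1) with h | h | h
    · rw [if_pos h, if_neg (not_lt.2 h.le), if_pos h]
    · rw [if_neg h.not_lt, if_neg h.symm.not_lt, if_neg h.symm.not_lt, if_neg h.not_lt]
    · rw [if_neg (not_lt.2 h.le), if_pos h, if_pos h]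
  have hg : ∀ a b, g a b = g b a := by
    intro a b
    simp only [g, ht a b, Sym2.eq_swap (a := a.1) (b := b.1)]
  have htlt : ∀ a b, a.2 ≠ b.2 → t a b + 1 < s := by
    intro a b hab
    have hab' : (a.2 : ℕ) ≠ b.2 := fun h => hab (Fin.ext h)
    have f1 := a.2.isLt
    have f2 := b.2.isLt
    simp only [t]
    split_ifs
    · have := diff_lt (N := s) hab' (by omega) (by omega)
      omega
    · have := diff_lt (N := s) hab'.symm (by omega) (by omega)
      omega
    · omega
  refine insertion (blowUp H s) H' (s * d) (d + 1) ?_ (fun a => x a.1)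
    (fun a => Nat.lt_succ_of_le (hx a.1)) (fun a b hab => hprop _ _ hab) ?_
    (Sym2.lift ⟨g, hg⟩) ?_ ?_
  · have : 1 * d ≤ s * d := Nat.mul_le_mul_right _ hs0
    omega
  · intro a b c hab hac hbc
    refine hloc a.1 b.1 c.1 hab.1 hac.1 (fun h => hbc ?_)
    exact Prod.ext h (hab.2.symm.trans hac.2)
  · intro a b hab hH'
    show g a b + (d + 1) < s * d + 1
    have hne : a.2 ≠ b.2 := fun h => hH' ⟨hab, h⟩
    have e1 := hψ1 a.1 b.1 hab
    have e2 := htlt a b hne
    simp only [g]
    obtain ⟨q, rfl⟩ : ∃ q, s = q + 1 := ⟨s - 1, by omega⟩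
    obtain ⟨k, rfl⟩ : ∃ k, d = k + 1 := ⟨d - 1, by omega⟩
    have e3 : ψ s(a.1, b.1) * (q + 1 - 1) ≤ k * q := by
      rw [Nat.add_sub_cancel]
      exact Nat.mul_le_mul_right _ (by omega)
    have e4 : (q + 1) * (k + 1) = k * q + q + k + 1 := by ring
    omega
  · intro a b c hab hHb hac hHc hbc he
    replace he : g a b = g a c := he
    apply hbc
    have hneb : a.2 ≠ b.2 := fun h => hHb ⟨hab, h⟩
    have hnec : a.2 ≠ c.2 := fun h => hHc ⟨hac, h⟩
    have e1 := htlt a b hneb
    have e2 := htlt a c hnec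
    have hd : 0 < s - 1 := by omega
    have e3 : ψ s(a.1, b.1) = ψ s(a.1, c.1) := by
      have h1 : (ψ s(a.1, b.1) * (s - 1) + t a b) / (s - 1) = ψ s(a.1, b.1) := by
        rw [mul_comm, Nat.mul_add_div hd, Nat.div_eq_of_lt (by omega), add_zero]
      have h2 : (ψ s(a.1, c.1) * (s - 1) + t a c) / (s - 1) = ψ s(a.1, c.1) := by
        rw [mul_comm, Nat.mul_add_div hd, Nat.div_eq_of_lt (by omega), add_zero]
      simp only [g] at he
      rw [← h1, he, h2]
    have e4 : t a b = t a c := by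
      simp only [g, e3] at he
      omega
    have e5 : b.1 = c.1 := by
      by_contra hbc'
      exact hψ2 a.1 b.1 c.1 hab hac hbc' e3
    refine Prod.ext e5 (Fin.ext ?_)
    have f1 := a.2.isLt
    have f2 := b.2.isLt
    have f3 := c.2.isLt
    have hneb' : (a.2 : ℕ) ≠ b.2 := fun h => hneb (Fin.ext h)
    have hnec' : (a.2 : ℕ) ≠ c.2 := fun h => hnec (Fin.ext h)
    simp only [t, ← e5] at e4
    rcases lt_or_gt_of_ne (hprop _ _ hab) with h | h
    · rw [if_pos h, if_pos h] at e4
      exact diff_inj (N := s) hneb' hnec' f1 f2 f3 e4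
    · rw [if_neg (not_lt.2 h.le), if_neg (not_lt.2 h.le), if_pos h, if_pos h] at e4
      exact diff_inj' (N := s) hneb' hnec' f1 f2 f3 e4

/-- Complete equipartite graphs with an even number of vertices. -/
theorem equipartite (r s : ℕ) (hrs : Even (r * s)) (hr : 1 ≤ r) (hs : 1 ≤ s) :
    Window (blowUp (⊤ : SimpleGraph (Fin r)) s) (s * (r - 1)) := by
  have h1 : ∀ v : Fin r, (v : ℕ) ≤ r - 1 := fun v => by
    have := v.isLt
    omega
  have h2 : ∀ u v : Fin r, (⊤ : SimpleGraph (Fin r)).Adj u v → (u : ℕ) ≠ v :=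
    fun u v h he => h (Fin.ext he)
  have h3 : ∀ u v w : Fin r, (⊤ : SimpleGraph (Fin r)).Adj u v →
      (⊤ : SimpleGraph (Fin r)).Adj u w → v ≠ w → (v : ℕ) ≠ w :=
    fun u v w _ _ h he => h (Fin.ext he)
  rcases Nat.even_mul.1 hrs with h | h
  · obtain ⟨φ, hφ1, hφ2, hφ3⟩ := one_factor r h
    refine blowUp_class_one _ (r - 1) s hs (fun v => v.val) h1 h2 h3
      (Sym2.lift ⟨fun a b => φ a b, fun a b => hφ1 a b⟩) ?_ ?_
    · intro u v huv
      exact hφ2 u u.isLt v v.isLt (h2 u v huv)
    · intro u v w huv huw hvw he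
      exact hvw (Fin.ext (hφ3 u u.isLt v v.isLt w w.isLt (h2 u v huv) (h2 u w huw) he))
  · exact blowUp_even _ (r - 1) s h hs (fun v => v.val) h1 h2 h3

/-- Cartesian products: `G` has a colouring with `d + 1` colours which are different at distance at
most two, `H` has an edge colouring with `k` colours and a vertex colouring with `d + 1` colours. -/
theorem cartesian {V W : Type} (G : SimpleGraph V) (H : SimpleGraph W) (d k : ℕ)
    (x : V → ℕ) (hx : ∀ v, x v ≤ d) (hprop : ∀ u v, G.Adj u v → x u ≠ x v)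
    (hloc : ∀ u v w, G.Adj u v → G.Adj u w → v ≠ w → x v ≠ x w)
    (y : W → ℕ) (hy : ∀ w, y w ≤ d) (hy' : ∀ u v, H.Adj u v → y u ≠ y v)
    (ψ : Sym2 W → ℕ) (hψ1 : ∀ u v, H.Adj u v → ψ s(u, v) < k)
    (hψ2 : ∀ u v w, H.Adj u v → H.Adj u w → v ≠ w → ψ s(u, v) ≠ ψ s(u, w)) :
    Window (G □ H) (d + k) := by
  classical
  let H' : SimpleGraph (V × W) :=
    { Adj := fun a b => G.Adj a.1 b.1 ∧ a.2 = b.2
      symm := ⟨fun _ _ h => ⟨h.1.symm, h.2.symm⟩⟩
      loopless := ⟨fun a h => G.loopless.irrefl a.1 h.1⟩ }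
  let g : V × W → V × W → ℕ := fun a b => ψ s(a.2, b.2)
  have hg : ∀ a b, g a b = g b a := by
    intro a b
    simp only [g, Sym2.eq_swap (a := a.2) (b := b.2)]
  have hmod : ∀ a b c : ℕ, a ≤ d → b ≤ d → (a + c) % (d + 1) = (b + c) % (d + 1) → a = b := by
    intro a b c ha hb h
    have := mod_inj (N := d + 1) (s := c) (by omega) (by omega) (by omega) (by omega) h
    omega
  have hsplit : ∀ a b, (G □ H).Adj a b → ¬ H'.Adj a b → H.Adj a.2 b.2 ∧ a.1 = b.1 := by
    intro a b hab hn
    rcases SimpleGraph.boxProd_adj.1 hab with h | h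
    · exact absurd h hn
    · exact h
  refine insertion (G □ H) H' (d + k) (d + 1) (by omega) (fun a => (x a.1 + y a.2) % (d + 1))
    (fun a => Nat.mod_lt _ (Nat.succ_pos d)) ?_ ?_ (Sym2.lift ⟨g, hg⟩) ?_ ?_
  · intro a b hab he
    rcases SimpleGraph.boxProd_adj.1 hab with ⟨h1, h2⟩ | ⟨h1, h2⟩
    · rw [h2] at he
      exact hprop _ _ h1 (hmod _ _ _ (hx _) (hx _) he)
    · rw [h2, add_comm (x b.1), add_comm (x b.1)] at he
      exact hy' _ _ h1 (hmod _ _ _ (hy _) (hy _) he)
  · intro a b c hab hac hbc he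
    have h2 : b.2 = c.2 := hab.2.symm.trans hac.2
    rw [h2] at he
    refine hloc a.1 b.1 c.1 hab.1 hac.1 (fun h => hbc (Prod.ext h h2)) ?_
    exact hmod _ _ _ (hx _) (hx _) he
  · intro a b hab hn
    show g a b + (d + 1) < d + k + 1
    have := hψ1 _ _ (hsplit a b hab hn).1
    simp only [g]
    omega
  · intro a b c hab hnb hac hnc hbc
    show g a b ≠ g a c
    obtain ⟨h1, h2⟩ := hsplit a b hab hnb
    obtain ⟨h3, h4⟩ := hsplit a c hac hnc
    exact hψ2 _ _ _ h1 h3 (fun h => hbc (Prod.ext (h2.symm.trans h4) h))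

end Pool.Agent.H8.HY
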