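import Pool.Graph.R_seed8.TH559.LE.Trans

/-!
# Circular (p,1)-total labellings: labels of the vertices of small degree

`Far p N a b`: the distance of the labels `a`, `b` on the circle of `N` labels is at least `p`.
`finish`: labels of the vertices outside `T`, if these have small degree and everything else is
labelled.
-/

set_option autoImplicit false

namespace Pool.Agent.H8.HY

open Finset Pool.Agent.TH559.LE

/-- The labels `a` and `b` have distance at least `p` on the circle of `N` labels. -/
def Far (p N a b : ℕ) : Prop :=
  (p : ℤ) ≤ |(a : ℤ) - (b : ℤ)| ∧ |(a : ℤ) - (b : ℤ)| ≤ (N : ℤ) - p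

theorem Far.symm {p N a b : ℕ} (h : Far p N a b) : Far p N b a := by
  unfold Far at *
  rwa [abs_sub_comm]

open Classical in
theorem card_near (p N a : ℕ) (hp : 1 ≤ p) (ha : a < N) :
    ((range N).filter (fun b => ¬ Far p N a b)).card ≤ 2 * p - 1 := by
  have hsub : (range N).filter (fun b => ¬ Far p N a b) ⊆
      (Finset.Icc (-((p : ℤ) - 1)) ((p : ℤ) - 1)).image
        (fun j => (((a : ℤ) + j) % (N : ℤ)).toNat) := by
    intro b hb
    rw [Finset.mem_filter, Finset.mem_range] at hb
    obtain ⟨hb, hfar⟩ := hb
    unfold Far at hfar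
    rw [not_and_or, not_le, not_le] at hfar
    rw [Finset.mem_image]
    have hb' : ((b : ℤ) % (N : ℤ)).toNat = b := by
      rw [Int.emod_eq_of_lt (by positivity) (by exact_mod_cast hb)]
      simp
    rcases hfar with h | h
    · refine ⟨(b : ℤ) - a, ?_, ?_⟩
      · rw [Finset.mem_Icc]
        rw [abs_lt] at h
        constructor <;> omega
      · rw [show (a : ℤ) + (b - a) = b by ring]
        exact hb'
    · rcases le_total a b with hab | hab
      · have h1 : |(a : ℤ) - b| = b - a := by
          rw [abs_sub_comm, abs_of_nonneg (by omega)]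
        rw [h1] at h
        refine ⟨(b : ℤ) - a - N, ?_, ?_⟩
        · rw [Finset.mem_Icc]
          constructor <;> omega
        · rw [show (a : ℤ) + (b - a - N) = b + N * (-1) by ring, Int.add_mul_emod_self_left]
          exact hb'
      · have h1 : |(a : ℤ) - b| = a - b := abs_of_nonneg (by omega)
        rw [h1] at h
        refine ⟨(b : ℤ) - a + N, ?_, ?_⟩
        · rw [Finset.mem_Icc]
          constructor <;> omega
        · rw [show (a : ℤ) + (b - a + N) = b + N * 1 by ring, Int.add_mul_emod_self_left]
          exact hb'
  refine (Finset.card_le_card hsub).trans (Finset.card_image_le.trans ?_)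
  rw [Int.card_Icc]
  omega

/-- Greedy colouring of vertices from lists. -/
theorem greedyV {V : Type} [Fintype V] (H : SimpleGraph V) (L : V → Finset ℕ) (W : Finset V)
    (hL : ∀ v ∈ W, (H.neighborSet v).ncard < (L v).card) :
    ∃ f : V → ℕ, (∀ v ∈ W, f v ∈ L v) ∧ ∀ u ∈ W, ∀ v ∈ W, H.Adj u v → f u ≠ f v := by
  classical
  induction W using Finset.induction_on with
  | empty => exact ⟨fun _ => 0, by simp, by simp⟩
  | insert w W hw ih =>
    obtain ⟨f, hf1, hf2⟩ := ih (fun v hv => hL v (Finset.mem_insert_of_mem hv))
    have h1 : ∃ x ∈ L w, x ∉ (univ.filter (fun u => H.Adj w u)).image f := by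
      by_contra hcon
      push Not at hcon
      have h2 : L w ⊆ (univ.filter (fun u => H.Adj w u)).image f := hcon
      have h3 := Finset.card_le_card h2
      have h4 := hL w (Finset.mem_insert_self w W)
      have h5 := dg_eq H w
      rw [dg] at h5
      have h6 : ((univ.filter (fun u => H.Adj w u)).image f).card ≤ _ := Finset.card_image_le
      omega
    obtain ⟨x, hx1, hx2⟩ := h1
    have hx3 : ∀ u, H.Adj w u → f u ≠ x := by
      intro u hu he
      exact hx2 (Finset.mem_image.2 ⟨u, by simpa using hu, he⟩)
    refine ⟨Function.update f w x, ?_, ?_⟩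
    · intro v hv
      rcases Finset.mem_insert.1 hv with rfl | hv
      · simpa using hx1
      · have hvw : v ≠ w := fun h => hw (h ▸ hv)
        rw [Function.update_of_ne hvw]
        exact hf1 v hv
    · intro u hu v hv huv
      rcases Finset.mem_insert.1 hu with rfl | hu
      · have hvu : v ≠ u := huv.ne'
        rw [Function.update_self, Function.update_of_ne hvu]
        exact (hx3 v huv).symm
      · have huw : u ≠ w := fun h => hw (h ▸ hu)
        rw [Function.update_of_ne huw]
        by_cases hvw : v = w
        · subst hvw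
          rw [Function.update_self]
          exact hx3 u huv.symm
        · rw [Function.update_of_ne hvw]
          have hv' : v ∈ W := (Finset.mem_insert.1 hv).resolve_left hvw
          exact hf2 u hu v hv' huv

/-- The labels of the vertices outside `T`. -/
theorem finish {V : Type} [Fintype V] (G : SimpleGraph V) (p N : ℕ) (hp : 1 ≤ p)
    (T : Set V) (fV : V → ℕ) (fE : Sym2 V → ℕ)
    (h1 : ∀ v ∈ T, fV v < N) (h2 : ∀ u v, G.Adj u v → fE s(u, v) < N)
    (h3 : ∀ u ∈ T, ∀ v ∈ T, G.Adj u v → fV u ≠ fV v)
    (h5 : ∀ u ∈ T, ∀ v, G.Adj u v → Far p N (fV u) (fE s(u, v)))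
    (hW : ∀ v, v ∉ T → 2 * p * (G.neighborSet v).ncard < N) :
    ∃ gV : V → ℕ, (∀ v ∈ T, gV v = fV v) ∧ (∀ v, gV v < N) ∧
      (∀ u v, G.Adj u v → gV u ≠ gV v) ∧
      (∀ u v, G.Adj u v → Far p N (gV u) (fE s(u, v))) := by
  classical
  set W : Finset V := univ.filter (fun v => v ∉ T) with hWdef
  set L : V → Finset ℕ := fun w => (range N).filter (fun x => ∀ u, G.Adj w u →
    Far p N (fE s(w, u)) x ∧ (u ∈ T → x ≠ fV u)) with hL
  let H : SimpleGraph V :=
    { Adj := fun a b => G.Adj a b ∧ a ∉ T ∧ b ∉ T
      symm := ⟨fun a b h => ⟨h.1.symm, h.2.2, h.2.1⟩⟩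
      loopless := ⟨fun a h => G.loopless.irrefl a h.1⟩ }
  have hcard : ∀ w ∈ W, (H.neighborSet w).ncard < (L w).card := by
    intro w hw
    have hwT : w ∉ T := by simpa [hWdef] using hw
    set NW := univ.filter (fun u => H.Adj w u) with hNW
    set NT := univ.filter (fun u => G.Adj w u ∧ u ∈ T) with hNT
    set NG := univ.filter (fun u => G.Adj w u) with hNG
    have e1 : (H.neighborSet w).ncard = NW.card := dg_eq H w
    have e2 : (G.neighborSet w).ncard = NG.card := dg_eq G w
    have e3 : NW.card + NT.card = NG.card := by
      rw [← Finset.card_union_of_disjoint]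
      · congr 1
        ext u
        simp only [hNW, hNT, hNG, mem_union, mem_filter, mem_univ, true_and]
        constructor
        · rintro (h | h)
          · exact h.1
          · exact h.1
        · intro h
          by_cases hu : u ∈ T
          · exact Or.inr ⟨h, hu⟩
          · exact Or.inl ⟨h, hwT, hu⟩
      · rw [Finset.disjoint_left]
        intro u hu1 hu2
        simp only [hNW, hNT, mem_filter, mem_univ, true_and] at hu1 hu2
        exact hu1.2.2 hu2.2
    have e4 : range N ⊆ L w ∪ (NG.biUnion (fun u => (range N).filter
        (fun b => ¬ Far p N (fE s(w, u)) b)) ∪ NT.image fV) := by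
      intro x hx
      by_cases hxL : x ∈ L w
      · exact Finset.mem_union_left _ hxL
      · apply Finset.mem_union_right
        rw [hL] at hxL
        simp only [mem_filter, not_and, not_forall] at hxL
        obtain ⟨u, hu, hxu⟩ := hxL hx
        by_cases hfar : Far p N (fE s(w, u)) x
        · apply Finset.mem_union_right
          have := hxu hfar
          push Not at this
          obtain ⟨huT, hxe⟩ := this
          rw [Finset.mem_image]
          exact ⟨u, by simp [hNT, hu, huT], hxe.symm⟩
        · apply Finset.mem_union_left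
          rw [Finset.mem_biUnion]
          exact ⟨u, by simp [hNG, hu], Finset.mem_filter.2 ⟨hx, hfar⟩⟩
    have e5 := Finset.card_le_card e4
    rw [Finset.card_range] at e5
    have e6 := Finset.card_union_le (L w) (NG.biUnion (fun u => (range N).filter
        (fun b => ¬ Far p N (fE s(w, u)) b)) ∪ NT.image fV)
    have e7 := Finset.card_union_le (NG.biUnion (fun u => (range N).filter
        (fun b => ¬ Far p N (fE s(w, u)) b))) (NT.image fV)
    have e8 : (NG.biUnion (fun u => (range N).filter
        (fun b => ¬ Far p N (fE s(w, u)) b))).card ≤ NG.card * (2 * p - 1) := by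
      apply Finset.card_biUnion_le_card_mul
      intro u hu
      exact card_near p N _ hp (h2 w u (by simpa [hNG] using hu))
    have e9 : (NT.image fV).card ≤ NT.card := Finset.card_image_le
    have e10 := hW w hwT
    rw [e2] at e10
    rw [e1]
    have e11 : NG.card * (2 * p - 1) + NG.card = 2 * p * NG.card := by
      obtain ⟨q, rfl⟩ : ∃ q, p = q + 1 := ⟨p - 1, by omega⟩
      have : 2 * (q + 1) - 1 = 2 * q + 1 := by omega
      rw [this]
      ring
    omega
  obtain ⟨f, hf1, hf2⟩ := greedyV H L W hcard
  have hmem : ∀ v, v ∉ T → f v ∈ L v := fun v hv => hf1 v (by simp [hWdef, hv])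
  refine ⟨fun v => if v ∈ T then fV v else f v, ?_, ?_, ?_, ?_⟩
  · intro v hv
    simp [hv]
  · intro v
    by_cases hv : v ∈ T
    · simp only [if_pos hv]
      exact h1 v hv
    · simp only [if_neg hv]
      have := hmem v hv
      simp only [hL, mem_filter, mem_range] at this
      exact this.1
  · intro u v huv
    by_cases hu : u ∈ T
    · by_cases hv : v ∈ T
      · simp only [if_pos hu, if_pos hv]
        exact h3 u hu v hv huv
      · simp only [if_pos hu, if_neg hv]
        have := hmem v hv
        simp only [hL, mem_filter, mem_range] at this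
        exact ((this.2 u huv.symm).2 hu).symm
    · by_cases hv : v ∈ T
      · simp only [if_neg hu, if_pos hv]
        have := hmem u hu
        simp only [hL, mem_filter, mem_range] at this
        exact (this.2 v huv).2 hv
      · simp only [if_neg hu, if_neg hv]
        exact hf2 u (by simp [hWdef, hu]) v (by simp [hWdef, hv]) ⟨huv, hu, hv⟩
  · intro u v huv
    by_cases hu : u ∈ T
    · simp only [if_pos hu]
      exact h5 u hu v huv
    · simp only [if_neg hu]
      have := hmem u hu
      simp only [hL, mem_filter, mem_range] at this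
      exact (this.2 v huv).1.symm

end Pool.Agent.H8.HY
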