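import Pool.Agent.H8.HY.Windows
import Pool.Graph.R_pool_sql_team_seeded_efc1946e.K1H34.HYC.Final
import Pool.Graph.R_pool_sql_team_seeded_efc1946e.K1H34.HYS.Final

/-!
# Reduction of the Havet-Yu conjecture to the graph of the large vertices
-/

set_option autoImplicit false

namespace Pool.Agent.H8.HY

open Finset

/-- The degree of `v` is at least `D / (2 p) + 1`. -/
def Large {V : Type} (G : SimpleGraph V) (D p : ℕ) (v : V) : Prop :=
  D + 2 * p ≤ 2 * p * (G.neighborSet v).ncard

/-- The number of neighbours of `v` of degree at least `D / (2 p) + 1`. -/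
noncomputable def largeNbrs {V : Type} (G : SimpleGraph V) (D p : ℕ) (v : V) : ℕ :=
  {w | G.Adj v w ∧ Large G D p w}.ncard

/-- The subgraph of `G` formed by the edges both of whose ends are in `T`. -/
def inside {V : Type} (G : SimpleGraph V) (T : Set V) : SimpleGraph V where
  Adj u v := G.Adj u v ∧ u ∈ T ∧ v ∈ T
  symm := ⟨fun _ _ h => ⟨h.1.symm, h.2.2, h.2.1⟩⟩
  loopless := ⟨fun a h => G.loopless.irrefl a h.1⟩

theorem reduction {V : Type} [Fintype V] (G : SimpleGraph V) (D p : ℕ) (T : Set V) (hp : 1 ≤ p)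
    (hD : ∀ v, (G.neighborSet v).ncard ≤ D) (hT : ∀ v, Large G D p v → v ∈ T)
    (hcross : ∀ u v, G.Adj u v → u ∉ T → v ∈ T →
      (G.neighborSet u ∩ T).ncard + (G.neighborSet v ∩ T).ncard ≤ D + 1)
    (h : Circ (inside G T) p (D + 2 * p)) : Circ G p (D + 2 * p) := by
  refine extend G (inside G T) p D hp T (fun u v => Iff.rfl) hD ?_ hcross h
  intro v hv
  by_contra hcon
  exact hv (hT v (not_lt.1 hcon))

theorem nbrs_large {V : Type} (G : SimpleGraph V) (D p : ℕ) (v : V) :
    (G.neighborSet v ∩ {w | Large G D p w}).ncard = largeNbrs G D p v := rfl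

theorem few {V : Type} [Fintype V] (G : SimpleGraph V) (D p : ℕ) (hp : 1 ≤ p)
    (hD : ∀ v, (G.neighborSet v).ncard ≤ D)
    (hT : {v | Large G D p v}.ncard ≤ D + 1)
    (hcross : ∀ u v, G.Adj u v → ¬ Large G D p u → Large G D p v →
      largeNbrs G D p u + largeNbrs G D p v ≤ D + 1) : Circ G p (D + 2 * p) := by
  classical
  refine reduction G D p {v | Large G D p v} hp hD (fun v hv => hv) (fun u v huv hu hv => ?_) ?_
  · exact hcross u v huv hu hv
  · apply windows _ p D hp {v | Large G D p v}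
    · intro v hv
      have : ((inside G {v | Large G D p v}).neighborSet v ∩ {v | Large G D p v}ᶜ).ncard = 0 := by
        rw [Set.ncard_eq_zero (Set.toFinite _)]
        ext w
        simp only [Set.mem_inter_iff, Set.mem_compl_iff, Set.mem_empty_iff_false, iff_false]
        rintro ⟨h1, h2⟩
        exact h2 h1.2.2
      omega
    · intro v hv hne
      obtain ⟨w, h1, _⟩ := hne
      exact absurd h1.2.1 hv

theorem largeNbrs_le_deg {V : Type} [Fintype V] (G : SimpleGraph V) (D p : ℕ) (v : V) :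
    largeNbrs G D p v ≤ (G.neighborSet v).ncard :=
  Set.ncard_le_ncard (fun _ hw => hw.1) (Set.toFinite _)

theorem largeNbrs_lt_card {V : Type} [Fintype V] (G : SimpleGraph V) (D p : ℕ) (v : V)
    (hv : Large G D p v) : largeNbrs G D p v + 1 ≤ {v | Large G D p v}.ncard := by
  classical
  have h1 : v ∉ {w | G.Adj v w ∧ Large G D p w} := fun h => G.loopless.irrefl v h.1
  have h2 := Set.ncard_insert_of_notMem h1 (Set.toFinite _)
  have h3 : insert v {w | G.Adj v w ∧ Large G D p w} ⊆ {v | Large G D p v} := by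
    intro w hw
    rcases Set.mem_insert_iff.1 hw with rfl | hw
    · exact hv
    · exact hw.2
  have h4 := Set.ncard_le_ncard h3 (Set.toFinite _)
  rw [h2] at h4
  exact h4

/-- Small vertices and large vertices with at most `(1 - 1 / (2 p)) D + 1` large neighbours. -/
theorem cross_of {V : Type} [Fintype V] (G : SimpleGraph V) (D p : ℕ) (hp : 1 ≤ p) (u v : V)
    (hu : ¬ Large G D p u) (hv : 2 * p * largeNbrs G D p v ≤ (2 * p - 1) * D + 2 * p) :
    largeNbrs G D p u + largeNbrs G D p v ≤ D + 1 := by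
  have h1 := largeNbrs_le_deg G D p u
  unfold Large at hu
  rw [not_le] at hu
  obtain ⟨q, rfl⟩ : ∃ q, p = q + 1 := ⟨p - 1, by omega⟩
  have h2 : 2 * (q + 1) - 1 = 2 * q + 1 := by omega
  rw [h2] at hv
  by_contra hcon
  push Not at hcon
  set a := largeNbrs G D (q + 1) u
  set b := largeNbrs G D (q + 1) v
  set d := (G.neighborSet u).ncard
  have h3 : 2 * (q + 1) * a ≤ 2 * (q + 1) * d := Nat.mul_le_mul_left _ h1
  have h4 : 2 * (q + 1) * (D + 2) ≤ 2 * (q + 1) * (a + b) := Nat.mul_le_mul_left _ (by omega)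
  have h5 : 2 * (q + 1) * (a + b) = 2 * (q + 1) * a + 2 * (q + 1) * b := by ring
  have h6 : 2 * (q + 1) * (D + 2) = (2 * q + 1) * D + D + 4 * (q + 1) := by ring
  omega

theorem few' {V : Type} [Fintype V] (G : SimpleGraph V) (D p : ℕ) (hp : 1 ≤ p)
    (hD : ∀ v, (G.neighborSet v).ncard ≤ D)
    (hT : 2 * p * {v | Large G D p v}.ncard ≤ (2 * p - 1) * D + 4 * p) :
    Circ G p (D + 2 * p) := by
  have hk : ∀ v, Large G D p v → 2 * p * largeNbrs G D p v ≤ (2 * p - 1) * D + 2 * p := by
    intro v hv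
    have h1 := largeNbrs_lt_card G D p v hv
    have h2 : 2 * p * (largeNbrs G D p v + 1) ≤ 2 * p * {v | Large G D p v}.ncard :=
      Nat.mul_le_mul_left _ h1
    have h3 : 2 * p * (largeNbrs G D p v + 1) = 2 * p * largeNbrs G D p v + 2 * p := by ring
    omega
  by_cases hD0 : D = 0
  · -- no edges
    subst hD0
    have hempty : {v | Large G 0 p v}.ncard = 0 := by
      rw [Set.ncard_eq_zero (Set.toFinite _)]
      ext v
      simp only [Set.mem_ofPred_eq, Set.mem_empty_iff_false, iff_false]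
      intro h
      have h1 := hD v
      unfold Large at h
      have h2 : (G.neighborSet v).ncard = 0 := by omega
      rw [h2] at h
      omega
    refine few G 0 p hp hD (by omega) ?_
    intro u v _ hu hv
    exact cross_of G 0 p hp u v hu (hk v hv)
  · refine few G D p hp hD ?_ ?_
    · obtain ⟨q, rfl⟩ : ∃ q, p = q + 1 := ⟨p - 1, by omega⟩
      have h2 : 2 * (q + 1) - 1 = 2 * q + 1 := by omega
      rw [h2] at hT
      by_contra hcon
      push Not at hcon
      set k := {v | Large G D (q + 1) v}.ncard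
      have h3 : 2 * (q + 1) * (D + 2) ≤ 2 * (q + 1) * k := Nat.mul_le_mul_left _ (by omega)
      have h6 : 2 * (q + 1) * (D + 2) = (2 * q + 1) * D + D + 4 * (q + 1) := by ring
      omega
    · intro u v _ hu hv
      exact cross_of G D p hp u v hu (hk v hv)

/-- Circular labellings with `D + C p` labels. -/
theorem linear_error : ∃ C : ℕ, ∀ (V : Type) [Fintype V] (G : SimpleGraph V) (p D : ℕ), 1 ≤ p →
    (∀ v, (G.neighborSet v).ncard ≤ D) → Circ G p (D + C * p) := by
  obtain ⟨C, hC⟩ := Pool.Agent.K1H34.HYC.final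
  refine ⟨C, ?_⟩
  intro V _ G p D hp hD
  obtain ⟨fV, fE, h1, h2, h3, h4, h5⟩ := hC V G p D hp (by
    intro v
    have h2 : Pool.Agent.K1H34.HYC.dg G Finset.univ v = (G.neighborSet v).ncard := by
      unfold Pool.Agent.K1H34.HYC.dg
      rw [← Set.ncard_coe_finset]
      congr 1
      ext y
      simp
    rw [h2]
    exact hD v)
  exact ⟨fV, fE, h1, h2, h3, h4, h5⟩

/-- Circular labellings with the second order term. -/
theorem second_order : ∃ C : ℝ, 0 ≤ C ∧ ∀ (V : Type) [Fintype V] (G : SimpleGraph V) (p D : ℕ),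
    1 ≤ p → 1 ≤ D → (∀ v, (G.neighborSet v).ncard ≤ D) →
    ∃ N : ℕ, (N : ℝ) ≤ D + 2 * p + C * (Real.sqrt D +
      (p : ℝ) ^ (2 / 3 : ℝ) * Real.log D ^ (1 / 3 : ℝ) + (p : ℝ) ^ 2 / D) ∧ Circ G p N := by
  obtain ⟨C, hC0, hC⟩ := Pool.Agent.K1H34.HYS.final
  refine ⟨C, hC0, ?_⟩
  intro V _ G p D hp hD1 hD
  obtain ⟨N, hN, fV, fE, h1, h2, h3, h4, h5⟩ := hC V G p D hp hD1 (by
    intro v
    have h2 : Pool.Agent.K1H34.HYS.dg G v = (G.neighborSet v).ncard := by
      unfold Pool.Agent.K1H34.HYS.dg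
      rw [← Set.ncard_coe_finset]
      congr 1
      ext y
      simp
    rw [h2]
    exact hD v)
  exact ⟨N, hN, fV, fE, h1, h2, h3, h4, h5⟩

theorem inside_deg {V : Type} [Fintype V] (G : SimpleGraph V) (D p B : ℕ)
    (hB : ∀ v, Large G D p v → largeNbrs G D p v ≤ B) (v : V) :
    ((inside G {v | Large G D p v}).neighborSet v).ncard ≤ B := by
  by_cases hv : Large G D p v
  · have h1 : (inside G {v | Large G D p v}).neighborSet v ⊆ {w | G.Adj v w ∧ Large G D p w} :=
      fun w hw => ⟨hw.1, hw.2.2⟩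
    exact (Set.ncard_le_ncard h1 (Set.toFinite _)).trans (hB v hv)
  · have h1 : (inside G {v | Large G D p v}).neighborSet v = ∅ := by
      ext w
      simp only [Set.mem_empty_iff_false, iff_false]
      intro hw
      exact hv hw.2.1
    rw [h1]
    simp

theorem circ_of_no_large {V : Type} (G : SimpleGraph V) (D p : ℕ) (hp : 1 ≤ p)
    (hL : ¬ ∃ v, Large G D p v) : Circ (inside G {v | Large G D p v}) p (D + 2 * p) := by
  push Not at hL
  have e1 : ∀ u v, ¬ (inside G {v | Large G D p v}).Adj u v := fun u v h => hL u h.2.1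
  have hN : 0 < D + 2 * p := by omega
  refine ⟨fun _ => 0, fun _ => 0, fun _ => hN, fun _ _ => hN, ?_, ?_, ?_⟩
  · intro u v h
    exact absurd h (e1 u v)
  · intro u v w h
    exact absurd h (e1 u v)
  · intro u v h
    exact absurd h (e1 u v)

/-- `b ≥ C p`. -/
theorem local_linear : ∃ C : ℕ, ∀ (V : Type) [Fintype V] (G : SimpleGraph V) (D p b : ℕ),
    1 ≤ p → (∀ v, (G.neighborSet v).ncard ≤ D) → C * p ≤ b →
    (∀ v, ¬ Large G D p v → largeNbrs G D p v ≤ b) →
    (∀ v, Large G D p v → largeNbrs G D p v + b ≤ D + 1) → Circ G p (D + 2 * p) := by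
  obtain ⟨C, hC⟩ := linear_error
  refine ⟨C, ?_⟩
  intro V _ G D p b hp hD hb h1 h2
  refine reduction G D p {v | Large G D p v} hp hD (fun v hv => hv) ?_ ?_
  · intro u v _ hu hv
    have e1 := h1 u hu
    have e2 := h2 v hv
    rw [nbrs_large, nbrs_large]
    omega
  · by_cases hL : ∃ v, Large G D p v
    · obtain ⟨v₀, hv₀⟩ := hL
      have e0 := h2 v₀ hv₀
      have e1 := hC V (inside G {v | Large G D p v}) p (D + 1 - b) hp
        (inside_deg G D p (D + 1 - b) (fun v hv => by have := h2 v hv; omega))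
      refine e1.mono ?_
      omega
    · exact circ_of_no_large G D p hp hL

/-- The second order term. -/
noncomputable def err (D p : ℕ) : ℝ :=
  Real.sqrt D + (p : ℝ) ^ (2 / 3 : ℝ) * Real.log D ^ (1 / 3 : ℝ) + (p : ℝ) ^ 2 / D

theorem err_le {D D' p : ℕ} (h1 : D' ≤ D) (h2 : D ≤ 2 * D') (h3 : 1 ≤ D') :
    err D' p ≤ 2 * err D p := by
  unfold err
  have hD' : (1 : ℝ) ≤ D' := by exact_mod_cast h3
  have hDD : (D' : ℝ) ≤ D := by exact_mod_cast h1
  have hDD2 : (D : ℝ) ≤ 2 * D' := by exact_mod_cast h2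
  have e1 : Real.sqrt D' ≤ Real.sqrt D := Real.sqrt_le_sqrt hDD
  have e2 : Real.log D' ^ (1 / 3 : ℝ) ≤ Real.log D ^ (1 / 3 : ℝ) :=
    Real.rpow_le_rpow (Real.log_nonneg hD') (Real.log_le_log (by linarith) hDD) (by norm_num)
  have e3 : (p : ℝ) ^ (2 / 3 : ℝ) * Real.log D' ^ (1 / 3 : ℝ) ≤
      (p : ℝ) ^ (2 / 3 : ℝ) * Real.log D ^ (1 / 3 : ℝ) :=
    mul_le_mul_of_nonneg_left e2 (by positivity)
  have e4 : (p : ℝ) ^ 2 / D' ≤ 2 * ((p : ℝ) ^ 2 / D) := by
    rw [← mul_div_assoc, div_le_div_iff₀ (by linarith) (by linarith)]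
    have : 0 ≤ (p : ℝ) ^ 2 := by positivity
    nlinarith
  have e5 : 0 ≤ Real.sqrt D := Real.sqrt_nonneg _
  have e6 : 0 ≤ (p : ℝ) ^ (2 / 3 : ℝ) * Real.log D ^ (1 / 3 : ℝ) := by
    have : 0 ≤ Real.log D := Real.log_nonneg (by linarith)
    positivity
  linarith

theorem one_le_err {D p : ℕ} (h : 1 ≤ D) : 1 ≤ err D p := by
  unfold err
  have hD : (1 : ℝ) ≤ D := by exact_mod_cast h
  have e1 : 1 ≤ Real.sqrt D := by
    rw [Real.one_le_sqrt]
    exact hD
  have e6 : 0 ≤ (p : ℝ) ^ (2 / 3 : ℝ) * Real.log D ^ (1 / 3 : ℝ) := by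
    have : 0 ≤ Real.log D := Real.log_nonneg hD
    positivity
  have e7 : 0 ≤ (p : ℝ) ^ 2 / D := by positivity
  linarith

/-- `b ≥ C err`. -/
theorem local_second : ∃ C : ℝ, ∀ (V : Type) [Fintype V] (G : SimpleGraph V) (D p b : ℕ),
    1 ≤ p → (∀ v, (G.neighborSet v).ncard ≤ D) → C * err D p ≤ b →
    (∀ v, ¬ Large G D p v → largeNbrs G D p v ≤ b) →
    (∀ v, Large G D p v → largeNbrs G D p v + b ≤ D + 1) → Circ G p (D + 2 * p) := by
  obtain ⟨C₀, hC₀, hC⟩ := second_order
  obtain ⟨C, hCC⟩ := exists_nat_ge C₀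
  refine ⟨4 * C + 4, ?_⟩
  intro V _ G D p b hp hD hb h1 h2
  refine reduction G D p {v | Large G D p v} hp hD (fun v hv => hv) ?_ ?_
  · intro u v _ hu hv
    have e1 := h1 u hu
    have e2 := h2 v hv
    rw [nbrs_large, nbrs_large]
    omega
  · by_cases hL : ∃ v, Large G D p v
    · obtain ⟨v₀, hv₀⟩ := hL
      have e0 := h2 v₀ hv₀
      have hD1 : 1 ≤ D := by
        have e1 := hD v₀
        unfold Large at hv₀
        by_contra hcon
        have e2 : (G.neighborSet v₀).ncard = 0 := by omega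
        rw [e2] at hv₀
        omega
      have hbD : b ≤ D + 1 := by omega
      have herr := one_le_err (p := p) hD1
      have hCr : (0 : ℝ) ≤ C := by positivity
      -- `b` and `D` are large compared with `C`
      have hb4 : 4 * C + 4 ≤ b := by
        have : (4 * (C : ℝ) + 4) * 1 ≤ (4 * C + 4) * err D p :=
          mul_le_mul_of_nonneg_left herr (by linarith)
        have e3 : (4 * (C : ℝ) + 4) ≤ b := by linarith
        exact_mod_cast e3
      set D' := max (D + 1 - b) ((D + 1) / 2) with hD'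
      have g1 : D + 1 - b ≤ D' := le_max_left _ _
      have g2 : (D + 1) / 2 ≤ D' := le_max_right _ _
      have g3 : D' ≤ D := by
        rw [hD']
        apply max_le <;> omega
      have g4 : D ≤ 2 * D' := by omega
      have g5 : 1 ≤ D' := by omega
      obtain ⟨N, hN, hcirc⟩ := hC V (inside G {v | Large G D p v}) p D' hp g5
        (fun v => (inside_deg G D p (D + 1 - b) (fun v hv => by have := h2 v hv; omega) v).trans g1)
      refine hcirc.mono ?_
      have g6 : (N : ℝ) ≤ D' + 2 * p + C * (2 * err D p) := by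
        refine hN.trans ?_
        have k1 := err_le (p := p) g3 g4 g5
        have k2 : 0 ≤ err D' p := by
          have := one_le_err (p := p) g5
          linarith
        have k3 : C₀ * err D' p ≤ C * (2 * err D p) := mul_le_mul hCC k1 k2 hCr
        have k4 : C₀ * (Real.sqrt D' + (p : ℝ) ^ (2 / 3 : ℝ) * Real.log D' ^ (1 / 3 : ℝ) +
          (p : ℝ) ^ 2 / D') = C₀ * err D' p := rfl
        rw [k4]
        linarith
      -- `2 C err ≤ D - D'`
      have g7 : (C : ℝ) * (2 * err D p) ≤ (b : ℝ) / 2 - 2 := by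
        have : (4 * (C : ℝ) + 4) * err D p = 2 * (C * (2 * err D p)) + 4 * err D p := by ring
        linarith
      have g8 : (b : ℝ) / 2 - 2 ≤ D - D' := by
        rcases le_total (D + 1 - b) ((D + 1) / 2) with hle | hle
        · have : D' = (D + 1) / 2 := max_eq_right hle
          have k1 : b + 2 * D' ≤ 2 * D + 4 := by omega
          have k2 : (b : ℝ) + 2 * D' ≤ 2 * D + 4 := by exact_mod_cast k1
          linarith
        · have : D' = D + 1 - b := max_eq_left hle
          have k1 : b + 2 * D' ≤ 2 * D + 4 := by omega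
          have k2 : (b : ℝ) + 2 * D' ≤ 2 * D + 4 := by exact_mod_cast k1
          linarith
      have g9 : (N : ℝ) ≤ D + 2 * p := by linarith
      exact_mod_cast g9
    · exact circ_of_no_large G D p hp hL

/-- `D ≥ C p ^ 2`. -/
theorem local_fixed : ∃ C : ℕ, ∀ (V : Type) [Fintype V] (G : SimpleGraph V) (D p : ℕ),
    1 ≤ p → (∀ v, (G.neighborSet v).ncard ≤ D) → C * p ^ 2 ≤ D →
    (∀ v, Large G D p v → 2 * p * largeNbrs G D p v ≤ (2 * p - 1) * D + 2 * p) →
    Circ G p (D + 2 * p) := by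
  obtain ⟨C, hC⟩ := local_linear
  refine ⟨2 * C, ?_⟩
  intro V _ G D p hp hD hCD h
  -- `b` is the largest degree of a small vertex
  have hp2 : 0 < 2 * p := by omega
  set b := (D + 2 * p - 1) / (2 * p) with hb
  have hb1 : 2 * p * b ≤ D + 2 * p - 1 := by
    rw [hb]
    exact Nat.mul_div_le _ _
  have hb2 : D + 2 * p - 1 < 2 * p * (b + 1) := by
    rw [hb]
    exact Nat.lt_mul_div_succ _ hp2
  refine hC V G D p b hp hD ?_ ?_ ?_
  · -- `C p ≤ b`
    have e1 : 2 * p * (C * p) ≤ D := by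
      calc 2 * p * (C * p) = 2 * C * p ^ 2 := by ring
        _ ≤ D := hCD
    have e2 : 2 * p * (b + 1) = 2 * p * b + 2 * p := by ring
    by_contra hcon
    push Not at hcon
    have e3 : 2 * p * (b + 1) ≤ 2 * p * (C * p) := Nat.mul_le_mul_left _ hcon
    omega
  · intro v hv
    have e1 := largeNbrs_le_deg G D p v
    unfold Large at hv
    rw [not_le] at hv
    refine e1.trans ?_
    rw [hb, Nat.le_div_iff_mul_le hp2]
    have e2 : (G.neighborSet v).ncard * (2 * p) = 2 * p * (G.neighborSet v).ncard := by ring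
    omega
  · intro v hv
    have e1 := h v hv
    obtain ⟨q, rfl⟩ : ∃ q, p = q + 1 := ⟨p - 1, by omega⟩
    have h2 : 2 * (q + 1) - 1 = 2 * q + 1 := by omega
    rw [h2] at e1
    by_contra hcon
    push Not at hcon
    set a := largeNbrs G D (q + 1) v
    have h4 : 2 * (q + 1) * (D + 2) ≤ 2 * (q + 1) * (a + b) := Nat.mul_le_mul_left _ (by omega)
    have h5 : 2 * (q + 1) * (a + b) = 2 * (q + 1) * a + 2 * (q + 1) * b := by ring
    have h6 : 2 * (q + 1) * (D + 2) = (2 * q + 1) * D + D + 4 * (q + 1) := by ring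
    omega

end Pool.Agent.H8.HY
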