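import Pool.Agent.H8.HY.WindowCol
import Pool.Agent.H8.HY.Large

/-!
# Colourings of the square of the graph of the large vertices; dually chordal graphs
-/

set_option autoImplicit false

namespace Pool.Agent.H8.HY

open Finset

/-- A maximum neighbourhood ordering: the graphs with such an ordering are the dually chordal
graphs. -/
def MaxNbr {V : Type} (G : SimpleGraph V) (ord : V → ℕ) : Prop :=
  Function.Injective ord ∧ ∀ v, ∃ u, ord v ≤ ord u ∧ (u = v ∨ G.Adj v u) ∧
    ∀ w z, ord v ≤ ord w → ord v ≤ ord z → (w = v ∨ G.Adj v w) → (z = w ∨ G.Adj w z) →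
      (z = u ∨ G.Adj u z)

/-- Vertices at distance at most two get different colours. -/
def SqCol {V : Type} (G : SimpleGraph V) (D : ℕ) : Prop :=
  ∃ x : V → ℕ, (∀ v, x v ≤ D) ∧ (∀ u v, G.Adj u v → x u ≠ x v) ∧
    ∀ u v w, G.Adj u v → G.Adj u w → v ≠ w → x v ≠ x w

theorem SqCol.window {V : Type} {G : SimpleGraph V} {D : ℕ} (h : SqCol G D) : Window G D := by
  obtain ⟨x, h1, h2, h3⟩ := h
  exact square G D x h1 h2 h3

open Classical in
theorem sqcol_of_maxNbr {V : Type} [Fintype V] (G : SimpleGraph V) (D : ℕ)
    (hD : ∀ v, (G.neighborSet v).ncard ≤ D) (ord : V → ℕ) (h : MaxNbr G ord) : SqCol G D := by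
  obtain ⟨hinj, hmax⟩ := h
  have hdeg : ∀ v, (univ.filter (fun w => w = v ∨ G.Adj v w)).card ≤ D + 1 := by
    intro v
    have e1 : univ.filter (fun w => w = v ∨ G.Adj v w) =
        insert v (univ.filter (fun w => G.Adj v w)) := by
      ext w
      simp
    rw [e1]
    refine (Finset.card_insert_le _ _).trans ?_
    have e2 : (univ.filter (fun w => G.Adj v w)).card = (G.neighborSet v).ncard := by
      rw [← Set.ncard_coe_finset]
      congr 1
      ext w
      simp
    have e3 := hD v
    omega
  have key : ∀ W : Finset V, (∀ a ∈ W, ∀ b, ord a ≤ ord b → b ∈ W) →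
      ∃ x : V → ℕ, (∀ v, x v ≤ D) ∧ ∀ a ∈ W, ∀ b ∈ W, a ≠ b →
        (G.Adj a b ∨ ∃ c ∈ W, G.Adj a c ∧ G.Adj c b) → x a ≠ x b := by
    intro W
    refine Finset.induction_on_min_value ord W ?_ ?_
    · intro _
      exact ⟨fun _ => 0, fun _ => Nat.zero_le _, by simp⟩
    · intro v s hv hmin ih hup
      have hups : ∀ a ∈ s, ∀ b, ord a ≤ ord b → b ∈ s := by
        intro a ha b hab
        rcases Finset.mem_insert.1 (hup a (Finset.mem_insert_of_mem ha) b hab) with rfl | hb
        · have := hinj (le_antisymm hab (hmin a ha))
          exact absurd (this ▸ ha) hv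
        · exact hb
      obtain ⟨x, hx1, hx2⟩ := ih hups
      obtain ⟨u, hu1, hu2, hu3⟩ := hmax v
      have hge : ∀ w ∈ insert v s, ord v ≤ ord w := by
        intro w hw
        rcases Finset.mem_insert.1 hw with rfl | hw
        · exact le_rfl
        · exact hmin w hw
      have hcl : ∀ w ∈ insert v s, ∀ z ∈ insert v s, (w = v ∨ G.Adj v w) →
          (z = w ∨ G.Adj w z) → (z = u ∨ G.Adj u z) :=
        fun w hw z hz => hu3 w z (hge w hw) (hge z hz)
      have huW : u ∈ insert v s := hup v (Finset.mem_insert_self v s) u hu1
      have hvW : v ∈ insert v s := Finset.mem_insert_self v s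
      by_cases huv : u = v
      · subst huv
        -- the component of `u` is its closed neighbourhood
        set C := (insert u s).filter (fun w => w = u ∨ G.Adj u w) with hC
        have hCcard : C.card ≤ D + 1 := by
          refine (Finset.card_le_card ?_).trans (hdeg u)
          intro w hw
          rw [hC, Finset.mem_filter] at hw
          simpa using hw.2
        have hCcl : ∀ a ∈ C, ∀ b ∈ insert u s, G.Adj a b → b ∈ C := by
          intro a ha b hb hab
          rw [hC, Finset.mem_filter] at ha ⊢
          exact ⟨hb, hcl a ha.1 b hb ha.2 (Or.inr hab)⟩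
        have huC : u ∈ C := by
          rw [hC, Finset.mem_filter]
          exact ⟨huW, Or.inl rfl⟩
        refine ⟨fun a => if ha : a ∈ C then (C.equivFin ⟨a, ha⟩).val else x a, ?_, ?_⟩
        · intro a
          by_cases ha : a ∈ C
          · simp only [dif_pos ha]
            have := (C.equivFin ⟨a, ha⟩).isLt
            omega
          · simp only [dif_neg ha]
            exact hx1 a
        · intro a ha b hb hab hR
          have hiff : a ∈ C ↔ b ∈ C := by
            rcases hR with hR | ⟨c, hc, h1, h2⟩
            · exact ⟨fun h => hCcl a h b hb hR, fun h => hCcl b h a ha hR.symm⟩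
            · exact ⟨fun h => hCcl c (hCcl a h c hc h1) b hb h2,
                fun h => hCcl c (hCcl b h c hc h2.symm) a ha h1.symm⟩
          by_cases haC : a ∈ C
          · have hbC := hiff.1 haC
            simp only [dif_pos haC, dif_pos hbC]
            intro he
            have := C.equivFin.injective (Fin.ext he)
            exact hab (congrArg Subtype.val this)
          · have hbC : b ∉ C := fun h => haC (hiff.2 h)
            simp only [dif_neg haC, dif_neg hbC]
            have has : a ∈ s := (Finset.mem_insert.1 ha).resolve_left (fun h => haC (h ▸ huC))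
            have hbs : b ∈ s := (Finset.mem_insert.1 hb).resolve_left (fun h => hbC (h ▸ huC))
            apply hx2 a has b hbs hab
            rcases hR with hR | ⟨c, hc, h1, h2⟩
            · exact Or.inl hR
            · refine Or.inr ⟨c, (Finset.mem_insert.1 hc).resolve_left (fun h => ?_), h1, h2⟩
              subst h
              exact haC (hCcl c huC a ha h1.symm)
      · have hadj : G.Adj v u := hu2.resolve_left huv
        have hus : u ∈ s := (Finset.mem_insert.1 huW).resolve_left huv
        set F := s.filter (fun w => w = u ∨ G.Adj u w) with hF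
        have hFcard : F.card ≤ D := by
          have e1 : insert v F ⊆ univ.filter (fun w => w = u ∨ G.Adj u w) := by
            intro w hw
            rcases Finset.mem_insert.1 hw with rfl | hw
            · simp only [Finset.mem_filter, Finset.mem_univ, true_and]
              exact Or.inr hadj.symm
            · rw [hF, Finset.mem_filter] at hw
              simpa using hw.2
          have e2 : v ∉ F := fun h => hv (Finset.mem_of_mem_filter v h)
          have e3 := (Finset.card_le_card e1).trans (hdeg u)
          rw [Finset.card_insert_of_notMem e2] at e3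
          omega
        obtain ⟨y, hy1, hy2⟩ : ∃ y ∈ range (D + 1), y ∉ F.image x := by
          by_contra hcon
          push Not at hcon
          have h2 : range (D + 1) ⊆ F.image x := hcon
          have h3 := Finset.card_le_card h2
          rw [Finset.card_range] at h3
          have h5 : (F.image x).card ≤ _ := Finset.card_image_le
          omega
        have hy3 : ∀ w ∈ F, x w ≠ y := fun w hw he => hy2 (Finset.mem_image.2 ⟨w, hw, he⟩)
        have hnear : ∀ b ∈ s, (G.Adj v b ∨ ∃ c ∈ insert v s, G.Adj v c ∧ G.Adj c b) → b ∈ F := by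
          intro b hb hR
          rw [hF, Finset.mem_filter]
          refine ⟨hb, ?_⟩
          have hb' : b ∈ insert v s := Finset.mem_insert_of_mem hb
          rcases hR with hR | ⟨c, hc, h1, h2⟩
          · exact hcl b hb' b hb' (Or.inr hR) (Or.inl rfl)
          · exact hcl c hc b hb' (Or.inr h1) (Or.inr h2)
        refine ⟨Function.update x v y, ?_, ?_⟩
        · intro w
          by_cases hw : w = v
          · rw [hw, Function.update_self]
            exact Nat.lt_succ_iff.1 (Finset.mem_range.1 hy1)
          · rw [Function.update_of_ne hw]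
            exact hx1 w
        · intro a ha b hb hab hR
          by_cases hav : a = v
          · subst hav
            have hbs : b ∈ s := (Finset.mem_insert.1 hb).resolve_left (Ne.symm hab)
            rw [Function.update_self, Function.update_of_ne (Ne.symm hab)]
            exact (hy3 b (hnear b hbs hR)).symm
          · have has : a ∈ s := (Finset.mem_insert.1 ha).resolve_left hav
            rw [Function.update_of_ne hav]
            by_cases hbv : b = v
            · subst hbv
              rw [Function.update_self]
              apply hy3 a (hnear a has ?_)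
              rcases hR with hR | ⟨c, hc, h1, h2⟩
              · exact Or.inl hR.symm
              · exact Or.inr ⟨c, hc, h2.symm, h1.symm⟩
            · have hbs : b ∈ s := (Finset.mem_insert.1 hb).resolve_left hbv
              rw [Function.update_of_ne hbv]
              apply hx2 a has b hbs hab
              rcases hR with hR | ⟨c, hc, h1, h2⟩
              · exact Or.inl hR
              · by_cases hcv : c = v
                · subst hcv
                  have ga := hcl a ha a ha (Or.inr h1.symm) (Or.inl rfl)
                  have gb := hcl b hb b hb (Or.inr h2) (Or.inl rfl)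
                  rcases ga with ga | ga
                  · rcases gb with gb | gb
                    · exact absurd (ga.trans gb.symm) hab
                    · rw [ga]
                      exact Or.inl gb
                  · rcases gb with gb | gb
                    · rw [gb]
                      exact Or.inl ga.symm
                    · exact Or.inr ⟨u, hus, ga.symm, gb⟩
                · exact Or.inr ⟨c, (Finset.mem_insert.1 hc).resolve_left hcv, h1, h2⟩
  obtain ⟨x, hx1, hx2⟩ := key univ (fun _ _ b _ => Finset.mem_univ b)
  refine ⟨x, hx1, fun u v huv => ?_, fun u v w huv huw hvw => ?_⟩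
  · exact hx2 u (Finset.mem_univ u) v (Finset.mem_univ v) huv.ne (Or.inl huv)
  · exact hx2 v (Finset.mem_univ v) w (Finset.mem_univ w) hvw
      (Or.inr ⟨u, Finset.mem_univ u, huv.symm, huw⟩)

/-- The square of a graph of maximum degree `k` has a colouring with `k ^ 2 + 1` colours. -/
theorem sqcol_of_degree {V : Type} [Fintype V] (G : SimpleGraph V) (D k : ℕ)
    (hk : ∀ v, (G.neighborSet v).ncard ≤ k) (hkD : k ^ 2 ≤ D) : SqCol G D := by
  classical
  obtain ⟨x, hx1, hx2⟩ := greedy_later (fun a b => G.Adj a b ∨ ∃ c, G.Adj a c ∧ G.Adj c b)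
    (by
      rintro a b (h | ⟨c, h1, h2⟩)
      · exact Or.inl h.symm
      · exact Or.inr ⟨c, h2.symm, h1.symm⟩) D (fun _ => 0) (by
      intro v
      -- the vertices at distance at most two from `v`
      set N : V → Finset V := fun w => univ.filter (fun z => G.Adj w z) with hN
      have hNk : ∀ w, (N w).card ≤ k := by
        intro w
        have e2 : (univ.filter (fun z => G.Adj w z)).card = (G.neighborSet w).ncard := by
          rw [← Set.ncard_coe_finset]
          congr 1
          ext z
          simp
        rw [hN, e2]
        exact hk w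
      have h1 : {w | (G.Adj v w ∨ ∃ c, G.Adj v c ∧ G.Adj c w) ∧ 0 ≤ 0 ∧ w ≠ v} ⊆
          ((N v).biUnion (fun c => insert c ((N c).erase v)) : Finset V) := by
        intro w hw
        obtain ⟨hw, _, hwv⟩ := hw
        rw [Finset.mem_coe, Finset.mem_biUnion]
        rcases hw with hw | ⟨c, h1, h2⟩
        · exact ⟨w, by simp [hN, hw], Finset.mem_insert_self _ _⟩
        · exact ⟨c, by simp [hN, h1], Finset.mem_insert_of_mem
            (Finset.mem_erase.2 ⟨hwv, by simp [hN, h2]⟩)⟩
      have h2 := Set.ncard_le_ncard h1 (Set.toFinite _)
      rw [Set.ncard_coe_finset] at h2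
      refine h2.trans ?_
      have h3 : ((N v).biUnion (fun c => insert c ((N c).erase v))).card ≤ (N v).card * k := by
        apply Finset.card_biUnion_le_card_mul
        intro c hc
        have hvc : v ∈ N c := by
          simp only [hN, Finset.mem_filter, Finset.mem_univ, true_and] at hc ⊢
          exact hc.symm
        have e1 := Finset.card_erase_of_mem hvc
        have e2 := Finset.card_insert_le c ((N c).erase v)
        have e3 := hNk c
        have e4 : 0 < (N c).card := Finset.card_pos.2 ⟨v, hvc⟩
        omega
      calc _ ≤ (N v).card * k := h3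
        _ ≤ k * k := Nat.mul_le_mul_right _ (hNk v)
        _ = k ^ 2 := by ring
        _ ≤ D := hkD)
  refine ⟨x, hx1, fun u v huv => hx2 u v huv.ne (Or.inl huv), fun u v w huv huw hvw => ?_⟩
  exact hx2 v w hvw (Or.inr ⟨u, huv.symm, huw⟩)

theorem inside_ncard {V : Type} [Fintype V] (G : SimpleGraph V) (T : Set V) (v : V) :
    ((inside G T).neighborSet v).ncard ≤ (G.neighborSet v ∩ T).ncard :=
  Set.ncard_le_ncard (fun _ hw => ⟨hw.1, hw.2.2⟩) (Set.toFinite _)

/-- The reduction for the square. -/
theorem sq_reduction {V : Type} [Fintype V] (G : SimpleGraph V) (D p : ℕ) (T : Set V)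
    (hp : 1 ≤ p) (hD : ∀ v, (G.neighborSet v).ncard ≤ D) (hT : ∀ v, Large G D p v → v ∈ T)
    (hcross : ∀ u v, G.Adj u v → u ∉ T → v ∈ T →
      (G.neighborSet u ∩ T).ncard + (G.neighborSet v ∩ T).ncard ≤ D + 1)
    (h : SqCol (inside G T) D) : Circ G p (D + 2 * p) :=
  reduction G D p T hp hD hT hcross (h.window.circ p hp)

theorem deg_zero_of {V : Type} [Fintype V] (G : SimpleGraph V)
    (hD : ∀ v, (G.neighborSet v).ncard ≤ 0) : ∀ u v, ¬ G.Adj u v := by
  intro u v huv
  have h1 : 0 < (G.neighborSet u).ncard := Set.ncard_pos (Set.toFinite _) |>.2 ⟨v, huv⟩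
  have h2 := hD u
  omega

/-- Large vertices with at most `√D` large neighbours. -/
theorem sqrt_large {V : Type} [Fintype V] (G : SimpleGraph V) (D p k : ℕ) (hp : 1 ≤ p)
    (hD : ∀ v, (G.neighborSet v).ncard ≤ D) (hk : k ^ 2 ≤ D)
    (h : ∀ v, Large G D p v → largeNbrs G D p v ≤ k) : Circ G p (D + 2 * p) := by
  refine sq_reduction G D p {v | Large G D p v} hp hD (fun v hv => hv) ?_ ?_
  · intro u v huv hu hv
    rw [nbrs_large, nbrs_large]
    refine cross_of G D p hp u v hu ?_
    have h1 := h v hv
    have h2 : k ≤ D := (Nat.le_self_pow two_ne_zero k).trans hk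
    obtain ⟨q, rfl⟩ : ∃ q, p = q + 1 := ⟨p - 1, by omega⟩
    have h3 : 2 * (q + 1) - 1 = 2 * q + 1 := by omega
    rw [h3]
    have h4 : 2 * (q + 1) * largeNbrs G D (q + 1) v ≤ 2 * (q + 1) * k := Nat.mul_le_mul_left _ h1
    -- `2 (q + 1) k ≤ (2 q + 1) D + 2 (q + 1)`
    have h5 : 2 * k ≤ D + 1 := by nlinarith [sq_nonneg ((k : ℤ) - 1)]
    have h6 : 2 * q * k ≤ 2 * q * D := Nat.mul_le_mul_left _ h2
    have h7 : 2 * (q + 1) * k = 2 * q * k + 2 * k := by ring
    have h8 : (2 * q + 1) * D = 2 * q * D + D := by ring
    omega
  · apply sqcol_of_degree _ D k _ hk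
    intro v
    by_cases hv : Large G D p v
    · exact (inside_ncard G _ v).trans (h v hv)
    · have h1 : ((inside G {v | Large G D p v}).neighborSet v).ncard = 0 := by
        rw [Set.ncard_eq_zero (Set.toFinite _)]
        ext w
        simp only [SimpleGraph.mem_neighborSet, Set.mem_empty_iff_false, iff_false]
        intro hw
        exact hv hw.2.1
      omega

end Pool.Agent.H8.HY
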