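import Pool.Agent.H8.HY.Circ

/-!
# Extending circular (p,1)-total labellings from the subgraph of the large vertices
-/

set_option autoImplicit false

namespace Pool.Agent.H8.HY

open Finset Pool.Agent.TH559.LE

/-- A circular `(p,1)`-total labelling with `N` labels. -/
def Circ {V : Type} (G : SimpleGraph V) (p N : ℕ) : Prop :=
  ∃ (fV : V → ℕ) (fE : Sym2 V → ℕ),
    (∀ v, fV v < N) ∧ (∀ e ∈ G.edgeSet, fE e < N) ∧
    (∀ u v, G.Adj u v → fV u ≠ fV v) ∧
    (∀ u v w, G.Adj u v → G.Adj u w → v ≠ w → fE s(u, v) ≠ fE s(u, w)) ∧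
    (∀ u v, G.Adj u v → (p : ℤ) ≤ |(fV u : ℤ) - (fE s(u, v) : ℤ)| ∧
      |(fV u : ℤ) - (fE s(u, v) : ℤ)| ≤ (N : ℤ) - p)

/-- Unused labels can be added. -/
theorem Circ.mono {V : Type} {G : SimpleGraph V} {p M N : ℕ} (hMN : M ≤ N) (h : Circ G p M) :
    Circ G p N := by
  obtain ⟨fV, fE, h1, h2, h3, h4, h5⟩ := h
  refine ⟨fV, fE, fun v => (h1 v).trans_le hMN, fun e he => (h2 e he).trans_le hMN, h3, h4, ?_⟩
  intro u v huv
  refine ⟨(h5 u v huv).1, (h5 u v huv).2.trans ?_⟩
  have : (M : ℤ) ≤ N := by exact_mod_cast hMN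
  omega

/-- Everything except the edges outside `T` and the labels outside `T` is labelled. -/
theorem complete {V : Type} [Fintype V] (G B : SimpleGraph V) (p N : ℕ) (hp : 1 ≤ p)
    (T : Set V) (hB : ∀ u v, B.Adj u v ↔ G.Adj u v ∧ (u ∈ T ∨ v ∈ T))
    (hW : ∀ v, v ∉ T → (G.neighborSet v ∩ Tᶜ).Nonempty → 2 * p * (G.neighborSet v).ncard < N)
    (fV : V → ℕ) (fE : Sym2 V → ℕ)
    (h1 : ∀ v, (v ∈ T ∨ N ≤ 2 * p * (G.neighborSet v).ncard) → fV v < N)
    (h2 : ∀ u v, B.Adj u v → fE s(u, v) < N)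
    (h3 : ∀ u v, (u ∈ T ∨ N ≤ 2 * p * (G.neighborSet u).ncard) →
      (v ∈ T ∨ N ≤ 2 * p * (G.neighborSet v).ncard) → G.Adj u v → fV u ≠ fV v)
    (h4 : ∀ u v w, B.Adj u v → B.Adj u w → v ≠ w → fE s(u, v) ≠ fE s(u, w))
    (h5 : ∀ u v, (u ∈ T ∨ N ≤ 2 * p * (G.neighborSet u).ncard) → B.Adj u v →
      Far p N (fV u) (fE s(u, v))) : Circ G p N := by
  classical
  have hBG : B ≤ G := fun a b h => ((hB a b).1 h).1
  -- lists for the edges
  set L : Sym2 V → Finset ℕ := fun _ => range N with hL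
  have hok : Ok B L fE := ⟨fun u v huv => Finset.mem_range.2 (h2 u v huv), h4⟩
  -- edges outside `T`
  have hdeg : ∀ v, v ∉ T → (G.neighborSet v ∩ Tᶜ).Nonempty → 2 * dg G v < N := by
    intro v hv hne
    have e1 := hW v hv hne
    rw [dg]
    calc 2 * (G.neighborSet v).ncard ≤ 2 * p * (G.neighborSet v).ncard :=
          Nat.mul_le_mul_right _ (by omega)
      _ < N := e1
  -- precolour the edges of `B` with singleton lists
  set L' : Sym2 V → Finset ℕ := fun z => if z ∈ B.edgeSet then {fE z} else range N with hL'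
  have hok' : Ok B L' fE := by
    refine ⟨fun u v huv => ?_, h4⟩
    have : s(u, v) ∈ B.edgeSet := huv
    simp [hL', this]
  obtain ⟨c, hc⟩ := greedy G B hBG L' ⟨fE, hok'⟩ (by
    intro u v huv hnB
    have hne : ¬ (u ∈ T ∨ v ∈ T) := fun h => hnB ((hB u v).2 ⟨huv, h⟩)
    push Not at hne
    have hz : s(u, v) ∉ B.edgeSet := hnB
    have hcard : (L' s(u, v)).card = N := by simp [hL', hz]
    rw [hcard]
    have e1 := hdeg u hne.1 ⟨v, huv, hne.2⟩
    have e2 := hdeg v hne.2 ⟨u, huv.symm, hne.1⟩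
    omega)
  have hcB : ∀ u v, B.Adj u v → c s(u, v) = fE s(u, v) := by
    intro u v huv
    have e1 := hc.1 u v (hBG huv)
    have : s(u, v) ∈ B.edgeSet := huv
    simpa [hL', this] using e1
  have hcN : ∀ u v, G.Adj u v → c s(u, v) < N := by
    intro u v huv
    by_cases hb : B.Adj u v
    · rw [hcB u v hb]
      exact h2 u v hb
    · have e1 := hc.1 u v huv
      have hz : s(u, v) ∉ B.edgeSet := hb
      simpa [hL', hz] using e1
  -- the vertices
  set S : Set V := {v | v ∈ T ∨ N ≤ 2 * p * (G.neighborSet v).ncard} with hS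
  have hSB : ∀ u, u ∈ S → ∀ v, G.Adj u v → B.Adj u v := by
    intro u hu v huv
    rw [hB]
    refine ⟨huv, ?_⟩
    by_contra hcon
    push Not at hcon
    have e1 := hW u hcon.1 ⟨v, huv, hcon.2⟩
    rcases hu with hu | hu
    · exact hcon.1 hu
    · omega
  obtain ⟨gV, g1, g2, g3, g4⟩ := finish G p N hp S fV c (fun v hv => h1 v hv) hcN
    (fun u hu v hv huv => h3 u v hu hv huv)
    (fun u hu v huv => by
      rw [hcB u v (hSB u hu v huv)]
      exact h5 u v hu (hSB u hu v huv))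
    (fun v hv => by
      rw [hS, Set.mem_ofPred_eq] at hv
      push Not at hv
      exact hv.2)
  refine ⟨gV, c, g2, ?_, g3, hc.2, g4⟩
  intro e he
  induction e using Sym2.ind with
  | _ u v => exact hcN u v he

/-- Extension from the graph `F` induced by `T`. -/
theorem extend {V : Type} [Fintype V] (G F : SimpleGraph V) (p D : ℕ) (hp : 1 ≤ p)
    (T : Set V) (hF : ∀ u v, F.Adj u v ↔ G.Adj u v ∧ u ∈ T ∧ v ∈ T)
    (hD : ∀ v, (G.neighborSet v).ncard ≤ D)
    (hW : ∀ v, v ∉ T → 2 * p * (G.neighborSet v).ncard < D + 2 * p)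
    (hcross : ∀ u v, G.Adj u v → u ∉ T → v ∈ T →
      (G.neighborSet u ∩ T).ncard + (G.neighborSet v ∩ T).ncard ≤ D + 1)
    (hlab : Circ F p (D + 2 * p)) : Circ G p (D + 2 * p) := by
  classical
  obtain ⟨fV, fE, h1, h2, h3, h4, h5⟩ := hlab
  set N := D + 2 * p with hN
  let B : SimpleGraph V :=
    { Adj := fun a b => G.Adj a b ∧ (a ∈ T ∨ b ∈ T)
      symm := ⟨fun a b h => ⟨h.1.symm, h.2.symm⟩⟩
      loopless := ⟨fun a h => G.loopless.irrefl a h.1⟩ }
  have hBG : B ≤ G := fun a b h => h.1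
  have hFB : F ≤ B := fun a b h => ⟨((hF a b).1 h).1, Or.inl ((hF a b).1 h).2.1⟩
  set L : Sym2 V → Finset ℕ := fun z => (range N).filter
    (fun x => ∀ v ∈ z, v ∈ T → Far p N (fV v) x) with hL
  have hok : Ok F L fE := by
    refine ⟨fun u v huv => ?_, h4⟩
    simp only [hL, Finset.mem_filter, Finset.mem_range]
    refine ⟨h2 _ huv, ?_⟩
    intro x hx hxT
    rcases Sym2.mem_iff.1 hx with rfl | rfl
    · exact h5 x v huv
    · have := h5 x u huv.symm
      rw [Sym2.eq_swap] at this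
      exact this
  have hdF0 : ∀ v, v ∉ T → dg F v = 0 := by
    intro v hv
    rw [dg, Set.ncard_eq_zero (Set.toFinite _)]
    ext w
    simp only [SimpleGraph.mem_neighborSet, Set.mem_empty_iff_false, iff_false]
    intro h
    exact hv ((hF v w).1 h).2.1
  have hdF1 : ∀ v, v ∈ T → dg F v = (G.neighborSet v ∩ T).ncard := by
    intro v hv
    rw [dg]
    congr 1
    ext w
    simp only [SimpleGraph.mem_neighborSet, Set.mem_inter_iff, hF]
    tauto
  have hdB : ∀ v, v ∉ T → dg B v = (G.neighborSet v ∩ T).ncard := by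
    intro v hv
    rw [dg]
    congr 1
    ext w
    show (G.Adj v w ∧ (v ∈ T ∨ w ∈ T)) ↔ _
    simp only [SimpleGraph.mem_neighborSet, Set.mem_inter_iff]
    tauto
  have hLcard : ∀ u v, u ∉ T → v ∈ T → D + 1 ≤ (L s(u, v)).card := by
    intro u v hu hv
    have e1 := card_near p N (fV v) hp (h1 v)
    have e2 : range N ⊆ L s(u, v) ∪ (range N).filter (fun b => ¬ Far p N (fV v) b) := by
      intro x hx
      by_cases hfar : Far p N (fV v) x
      · apply Finset.mem_union_left
        simp only [hL, Finset.mem_filter]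
        refine ⟨hx, ?_⟩
        intro y hy hyT
        rcases Sym2.mem_iff.1 hy with rfl | rfl
        · exact absurd hyT hu
        · exact hfar
      · exact Finset.mem_union_right _ (Finset.mem_filter.2 ⟨hx, hfar⟩)
    have e3 := (Finset.card_le_card e2).trans (Finset.card_union_le _ _)
    rw [Finset.card_range] at e3
    omega
  obtain ⟨c, hc⟩ : ∃ c, Ok B L c := by
    refine ext F B hFB (fun v => v ∈ T) ?_ L ?_ fE hok
    · intro u v g1 g2
      have g3 : ¬ (u ∈ T ∧ v ∈ T) := fun h => g2 ((hF u v).2 ⟨g1.1, h⟩)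
      have g4 := g1.2
      tauto
    · intro u v g1 g2
      have g3 : ¬ (u ∈ T ∧ v ∈ T) := fun h => g2 ((hF u v).2 ⟨g1.1, h⟩)
      by_cases hv : v ∈ T
      · have hu : u ∉ T := fun h => g3 ⟨h, hv⟩
        rw [hdB u hu, hdF1 v hv]
        exact (hcross u v g1.1 hu hv).trans (hLcard u v hu hv)
      · have hu : u ∈ T := g1.2.resolve_right hv
        rw [hdF0 v hv]
        have g6 := dg_mono hBG u
        have g7 : dg G u ≤ D := hD u
        have g8 := hLcard v u hv hu
        rw [Sym2.eq_swap] at g8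
        omega
  have hsmall : ∀ v, (v ∈ T ∨ N ≤ 2 * p * (G.neighborSet v).ncard) → v ∈ T := by
    intro v hv
    by_contra hvT
    have := hW v hvT
    rcases hv with h | h
    · exact hvT h
    · omega
  apply complete G B p N hp T (fun u v => Iff.rfl) (fun v hv _ => hW v hv) fV c
  · intro v _
    exact h1 v
  · intro u v huv
    have := hc.1 u v huv
    simp only [hL, Finset.mem_filter, Finset.mem_range] at this
    exact this.1
  · intro u v hu hv huv
    exact h3 u v ((hF u v).2 ⟨huv, hsmall u hu, hsmall v hv⟩)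
  · exact hc.2
  · intro u v hu huv
    have := hc.1 u v huv
    simp only [hL, Finset.mem_filter, Finset.mem_range] at this
    exact this.2 u (Sym2.mem_mk_left _ _) (hsmall u hu)

end Pool.Agent.H8.HY
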