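import Pool.Agent.H8.HY.Windows

/-!
# Window labellings

`Window G D`: the vertices have positions `x v ∈ {0, …, D}`, different for adjacent vertices, and
the edges have labels such that the edges at `v` get different labels in the window
`x v, …, x v + D`. Such a labelling gives circular `(p,1)`-total labellings with `D + 2 p` labels for
all `p ≥ 1` at once.
-/

set_option autoImplicit false

namespace Pool.Agent.H8.HY

open Finset

/-- A window labelling. -/
def Window {V : Type} (G : SimpleGraph V) (D : ℕ) : Prop :=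
  ∃ (x : V → ℕ) (f : Sym2 V → ℕ), (∀ v, x v ≤ D) ∧ (∀ u v, G.Adj u v → x u ≠ x v) ∧
    (∀ u v w, G.Adj u v → G.Adj u w → v ≠ w → f s(u, v) ≠ f s(u, w)) ∧
    (∀ u v, G.Adj u v → x u ≤ f s(u, v) ∧ f s(u, v) ≤ x u + D)

theorem Window.circ {V : Type} {G : SimpleGraph V} {D : ℕ} (h : Window G D) (p : ℕ)
    (hp : 1 ≤ p) : Circ G p (D + 2 * p) := by
  obtain ⟨x, f, h1, h2, h3, h4⟩ := h
  obtain ⟨N, hN⟩ : ∃ N, N = D + 2 * p := ⟨_, rfl⟩
  have hN0 : 0 < N := by omega
  rw [← hN]
  refine ⟨fun v => (x v + N - p) % N, fun e => f e % N, fun v => Nat.mod_lt _ hN0,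
    fun e _ => Nat.mod_lt _ hN0, ?_, ?_, ?_⟩
  · intro u v huv he
    have e1 := h1 u
    have e2 := h1 v
    have e3 := mod_inj (s := N - p) (by omega) (by omega) (by omega) (by omega) he
    exact h2 u v huv (by omega)
  · intro u v w huv huw hvw he
    have e1 := h4 u v huv
    have e2 := h4 u w huw
    exact h3 u v w huv huw hvw (mod_inj (s := x u) e1.1 e2.1 (by omega) (by omega) he)
  · intro u v huv
    have e1 := h4 u v huv
    obtain ⟨i, hi⟩ : ∃ i, f s(u, v) = x u + i := ⟨f s(u, v) - x u, by omega⟩
    show Far p N ((x u + N - p) % N) (f s(u, v) % N)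
    rw [hi]
    exact far_window hN hp (by omega)

/-- Insertion: `H` is labelled by the sums of the positions, the other edges get `D + 1 - r`
further labels which are inserted after the label `r - 1`. -/
theorem insertion {V : Type} (G H : SimpleGraph V) (D r : ℕ) (hr : r ≤ D + 1)
    (x : V → ℕ) (hx : ∀ v, x v < r) (hprop : ∀ u v, G.Adj u v → x u ≠ x v)
    (hloc : ∀ u v w, H.Adj u v → H.Adj u w → v ≠ w → x v ≠ x w)
    (c : Sym2 V → ℕ) (hc : ∀ u v, G.Adj u v → ¬ H.Adj u v → c s(u, v) + r < D + 1)
    (hc' : ∀ u v w, G.Adj u v → ¬ H.Adj u v → G.Adj u w → ¬ H.Adj u w → v ≠ w →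
      c s(u, v) ≠ c s(u, w)) : Window G D := by
  classical
  -- labels of the edges
  let g : V → V → ℕ := fun u v => if H.Adj u v then
    (if x u + x v < r then x u + x v else x u + x v + (D + 1 - r)) else r + c s(u, v)
  have hg : ∀ u v, g u v = g v u := by
    intro u v
    simp only [g, H.adj_comm u v, add_comm (x u) (x v), Sym2.eq_swap (a := u) (b := v)]
  have hgH : ∀ u v, H.Adj u v →
      g u v = if x u + x v < r then x u + x v else x u + x v + (D + 1 - r) := by
    intro u v h
    simp only [g, if_pos h]
  have hgN : ∀ u v, ¬ H.Adj u v → g u v = r + c s(u, v) := by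
    intro u v h
    simp only [g, if_neg h]
  refine ⟨x, Sym2.lift ⟨g, hg⟩, fun v => by have := hx v; omega, hprop, ?_, ?_⟩
  · intro u v w huv huw hvw he
    replace he : g u v = g u w := he
    by_cases h1 : H.Adj u v
    · by_cases h2 : H.Adj u w
      · rw [hgH u v h1, hgH u w h2] at he
        apply hloc u v w h1 h2 hvw
        split_ifs at he <;> omega
      · rw [hgH u v h1, hgN u w h2] at he
        have e1 := hc u w huw h2
        split_ifs at he <;> omega
    · by_cases h2 : H.Adj u w
      · rw [hgN u v h1, hgH u w h2] at he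
        have e1 := hc u v huv h1
        split_ifs at he <;> omega
      · rw [hgN u v h1, hgN u w h2] at he
        exact hc' u v w huv h1 huw h2 hvw (by omega)
  · intro u v huv
    show x u ≤ g u v ∧ g u v ≤ x u + D
    have e1 := hx u
    have e2 := hx v
    by_cases h1 : H.Adj u v
    · rw [hgH u v h1]
      split_ifs <;> constructor <;> omega
    · rw [hgN u v h1]
      have e3 := hc u v huv h1
      constructor <;> omega

/-- Colourings of the square. -/
theorem square {V : Type} (G : SimpleGraph V) (D : ℕ) (x : V → ℕ) (hx : ∀ v, x v ≤ D)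
    (hprop : ∀ u v, G.Adj u v → x u ≠ x v)
    (hloc : ∀ u v w, G.Adj u v → G.Adj u w → v ≠ w → x v ≠ x w) : Window G D := by
  refine insertion G G D (D + 1) le_rfl x (fun v => Nat.lt_succ_of_le (hx v)) hprop hloc
    (fun _ => 0) ?_ ?_
  · intro u v h1 h2
    exact absurd h1 h2
  · intro u v w h1 h2
    exact absurd h1 h2

/-- The colouring of a graph in which every vertex has few later neighbours. -/
theorem greedy_later {V : Type} [Fintype V] (R : V → V → Prop) (hsymm : ∀ a b, R a b → R b a)
    (D : ℕ) (ord : V → ℕ)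
    (hlater : ∀ v, {w | R v w ∧ ord v ≤ ord w ∧ w ≠ v}.ncard ≤ D) :
    ∃ x : V → ℕ, (∀ v, x v ≤ D) ∧ ∀ a b, a ≠ b → R a b → x a ≠ x b := by
  classical
  have key : ∀ W : Finset V, ∃ x : V → ℕ, (∀ v, x v ≤ D) ∧
      ∀ a ∈ W, ∀ b ∈ W, a ≠ b → R a b → x a ≠ x b := by
    intro W
    refine Finset.induction_on_min_value ord W ?_ ?_
    · exact ⟨fun _ => 0, fun _ => Nat.zero_le _, by simp⟩
    · intro v s hv hmin ih
      obtain ⟨x, hx1, hx2⟩ := ih
      have h1 : ∃ y ∈ range (D + 1), y ∉ (s.filter (fun w => R v w)).image x := by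
        by_contra hcon
        push Not at hcon
        have h2 : range (D + 1) ⊆ (s.filter (fun w => R v w)).image x := hcon
        have h3 := Finset.card_le_card h2
        rw [Finset.card_range] at h3
        have h4 : (s.filter (fun w => R v w)).card ≤ D := by
          rw [← Set.ncard_coe_finset]
          refine (Set.ncard_le_ncard ?_ (Set.toFinite _)).trans (hlater v)
          intro w hw
          rw [Finset.mem_coe, Finset.mem_filter] at hw
          exact ⟨hw.2, hmin w hw.1, fun h => hv (h ▸ hw.1)⟩
        have h5 : ((s.filter (fun w => R v w)).image x).card ≤ _ := Finset.card_image_le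
        omega
      obtain ⟨y, hy1, hy2⟩ := h1
      have hy3 : ∀ w ∈ s, R v w → x w ≠ y := by
        intro w hw hvw he
        exact hy2 (Finset.mem_image.2 ⟨w, Finset.mem_filter.2 ⟨hw, hvw⟩, he⟩)
      refine ⟨Function.update x v y, ?_, ?_⟩
      · intro w
        by_cases hw : w = v
        · subst hw
          rw [Function.update_self]
          exact Nat.lt_succ_iff.1 (Finset.mem_range.1 hy1)
        · rw [Function.update_of_ne hw]
          exact hx1 w
      · intro a ha b hb hab hR
        rcases Finset.mem_insert.1 ha with rfl | ha'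
        · have hbs : b ∈ s := (Finset.mem_insert.1 hb).resolve_left (Ne.symm hab)
          rw [Function.update_self, Function.update_of_ne (Ne.symm hab)]
          exact (hy3 b hbs hR).symm
        · have hav : a ≠ v := fun h => hv (h ▸ ha')
          rw [Function.update_of_ne hav]
          by_cases hbv : b = v
          · rw [hbv, Function.update_self]
            exact hy3 a ha' (hsymm a v (hbv ▸ hR))
          · rw [Function.update_of_ne hbv]
            exact hx2 a ha' b ((Finset.mem_insert.1 hb).resolve_left hbv) hab hR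
  obtain ⟨x, hx1, hx2⟩ := key univ
  exact ⟨x, hx1, fun a b hab hR => hx2 a (Finset.mem_univ a) b (Finset.mem_univ b) hab hR⟩

end Pool.Agent.H8.HY
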