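import Pool.Agent.H8.HY.Extend

/-!
# Labels in windows

`sched`: the edges which leave a set `T`, whose vertices have different positions `x v`, can be
coloured properly such that the edges at `v ∈ T` get the colours `x v, …, x v + d v - 1`.
`windows`: circular `(p,1)`-total labellings with `D + 2 p` labels if every vertex of `T` has at
most `D + 1 - |T|` neighbours outside `T` and the vertices outside `T` which are adjacent to
vertices outside `T` have small degree.
-/

set_option autoImplicit false

namespace Pool.Agent.H8.HY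

open Finset Pool.Agent.TH559.LE

/-- The scheduling lemma. -/
theorem sched {V : Type} [DecidableEq V] (O : V → Finset V) (x : V → ℕ) (T : Finset V) :
    (∀ u ∈ T, ∀ v ∈ T, x u = x v → u = v) →
    ∃ c : V → V → ℕ, (∀ v ∈ T, ∀ w ∈ O v, x v ≤ c v w ∧ c v w < x v + (O v).card) ∧
      (∀ v ∈ T, ∀ w ∈ O v, ∀ w' ∈ O v, c v w = c v w' → w = w') ∧
      (∀ v ∈ T, ∀ v' ∈ T, ∀ w, w ∈ O v → w ∈ O v' → c v w = c v' w → v = v') := by
  refine Finset.induction_on_min_value x T ?_ ?_
  · intro _
    exact ⟨fun _ _ => 0, by simp, by simp, by simp⟩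
  · intro a s has hmin ih hinj
    obtain ⟨c, c1, c2, c3⟩ := ih (fun u hu v hv => hinj u (Finset.mem_insert_of_mem hu) v
      (Finset.mem_insert_of_mem hv))
    have hlt : ∀ v ∈ s, x a < x v := by
      intro v hv
      refine lt_of_le_of_ne (hmin v hv) fun h => ?_
      have := hinj a (Finset.mem_insert_self a s) v (Finset.mem_insert_of_mem hv) h
      exact has (this ▸ hv)
    set d := (O a).card with hd
    -- `t j`: the neighbours of `a` whose edge may get the colour `x a + j`
    let t : Fin d → Finset V := fun j => (O a).filter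
      (fun w => ∀ v ∈ s, w ∈ O v → c v w ≠ x a + j)
    have ht : ∀ j : Fin d, d - j.val ≤ (t j).card := by
      intro j
      have e1 : (O a).filter (fun w => ¬ ∀ v ∈ s, w ∈ O v → c v w ≠ x a + j) ⊆
          ((s.filter (fun v => x v ≤ x a + j)).biUnion
            (fun v => (O v).filter (fun w => c v w = x a + j))) := by
        intro w hw
        rw [Finset.mem_filter] at hw
        obtain ⟨_, hw⟩ := hw
        push Not at hw
        obtain ⟨v, hv, hwv, he⟩ := hw
        rw [Finset.mem_biUnion]
        refine ⟨v, Finset.mem_filter.2 ⟨hv, ?_⟩, Finset.mem_filter.2 ⟨hwv, he⟩⟩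
        rw [← he]
        exact (c1 v hv w hwv).1
      have e2 : ((s.filter (fun v => x v ≤ x a + j)).biUnion
            (fun v => (O v).filter (fun w => c v w = x a + j))).card ≤
          (s.filter (fun v => x v ≤ x a + j)).card * 1 := by
        apply Finset.card_biUnion_le_card_mul
        intro v hv
        have hvs := (Finset.mem_filter.1 hv).1
        rw [Finset.card_le_one]
        intro w hw w' hw'
        rw [Finset.mem_filter] at hw hw'
        exact c2 v hvs w hw.1 w' hw'.1 (hw.2.trans hw'.2.symm)
      have e3 : (s.filter (fun v => x v ≤ x a + j)).card ≤ j.val := by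
        have e4 : ((s.filter (fun v => x v ≤ x a + j)).image x) ⊆
            Finset.Icc (x a + 1) (x a + j) := by
          intro y hy
          rw [Finset.mem_image] at hy
          obtain ⟨v, hv, rfl⟩ := hy
          rw [Finset.mem_filter] at hv
          rw [Finset.mem_Icc]
          exact ⟨hlt v hv.1, hv.2⟩
        have e5 : ((s.filter (fun v => x v ≤ x a + j)).image x).card =
            (s.filter (fun v => x v ≤ x a + j)).card := by
          apply Finset.card_image_of_injOn
          intro u hu v hv huv
          simp only [Finset.coe_filter, Set.mem_ofPred_eq] at hu hv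
          exact hinj u (Finset.mem_insert_of_mem hu.1) v (Finset.mem_insert_of_mem hv.1) huv
        have e6 := Finset.card_le_card e4
        rw [e5, Nat.card_Icc] at e6
        omega
      have e7 := Finset.card_filter_add_card_filter_not (s := O a)
        (fun w => ∀ v ∈ s, w ∈ O v → c v w ≠ x a + j)
      have e8 := Finset.card_le_card e1
      show d - j.val ≤ ((O a).filter (fun w => ∀ v ∈ s, w ∈ O v → c v w ≠ x a + j)).card
      omega
    obtain ⟨f, hf1, hf2⟩ := (Finset.all_card_le_biUnion_card_iff_exists_injective t).1 (by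
      intro S
      rcases S.eq_empty_or_nonempty with rfl | hS
      · simp
      · have hj := S.min'_mem hS
        set j := S.min' hS with hjdef
        have g1 : (t j).card ≤ (S.biUnion t).card :=
          Finset.card_le_card (Finset.subset_biUnion_of_mem t hj)
        have g2 : S.card ≤ d - j.val := by
          have g3 : S ⊆ Finset.Ici j := by
            intro i hi
            rw [Finset.mem_Ici]
            exact S.min'_le i hi
          have g4 := Finset.card_le_card g3
          rwa [Fin.card_Ici] at g4
        exact g2.trans ((ht j).trans g1))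
    have hfO : ∀ j, f j ∈ O a := fun j => (Finset.mem_filter.1 (hf2 j)).1
    have hsurj : ∀ w ∈ O a, ∃ j, f j = w := by
      have h1 : univ.image f = O a := by
        apply Finset.eq_of_subset_of_card_le
        · intro w hw
          obtain ⟨j, _, rfl⟩ := Finset.mem_image.1 hw
          exact hfO j
        · rw [Finset.card_image_of_injective _ hf1, Finset.card_univ, Fintype.card_fin]
      intro w hw
      rw [← h1] at hw
      obtain ⟨j, _, hj⟩ := Finset.mem_image.1 hw
      exact ⟨j, hj⟩
    classical
    let g : V → ℕ := fun w => if h : w ∈ O a then x a + (Classical.choose (hsurj w h)).val else 0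
    have hg : ∀ w (h : w ∈ O a), g w = x a + (Classical.choose (hsurj w h)).val := by
      intro w h
      simp only [g, dif_pos h]
    have hgf : ∀ w (h : w ∈ O a), f (Classical.choose (hsurj w h)) = w := by
      intro w h
      exact Classical.choose_spec (hsurj w h)
    have hgs : ∀ w ∈ O a, ∀ v ∈ s, w ∈ O v → c v w ≠ g w := by
      intro w hw v hv hwv
      have h1 := (Finset.mem_filter.1 (hf2 (Classical.choose (hsurj w hw)))).2 v hv
      rw [hgf w hw] at h1
      rw [hg w hw]
      exact h1 hwv
    have hup : ∀ v ∈ s, Function.update c a g v = c v := by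
      intro v hv
      have hva : v ≠ a := fun h => has (h ▸ hv)
      rw [Function.update_of_ne hva]
    refine ⟨Function.update c a g, ?_, ?_, ?_⟩
    · intro v hv w hw
      rcases Finset.mem_insert.1 hv with rfl | hv
      · rw [Function.update_self, hg w hw]
        have := (Classical.choose (hsurj w hw)).isLt
        omega
      · rw [hup v hv]
        exact c1 v hv w hw
    · intro v hv w hw w' hw' he
      rcases Finset.mem_insert.1 hv with rfl | hv
      · rw [Function.update_self, hg w hw, hg w' hw'] at he
        have h1 : Classical.choose (hsurj w hw) = Classical.choose (hsurj w' hw') :=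
          Fin.ext (by omega)
        rw [← hgf w hw, ← hgf w' hw', h1]
      · rw [hup v hv] at he
        exact c2 v hv w hw w' hw' he
    · intro v hv v' hv' w hw hw' he
      rcases Finset.mem_insert.1 hv with h1 | h1
      · rcases Finset.mem_insert.1 hv' with h2 | h2
        · exact h1.trans h2.symm
        · rw [h1, Function.update_self, hup v' h2] at he
          rw [h1] at hw
          exact absurd he.symm (hgs w hw v' h2 hw')
      · rcases Finset.mem_insert.1 hv' with h2 | h2
        · rw [h2, Function.update_self, hup v h1] at he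
          rw [h2] at hw'
          exact absurd he (hgs w hw' v h1 hw)
        · rw [hup v h1, hup v' h2] at he
          exact c3 v h1 v' h2 w hw hw' he

theorem far_of_mod {p N a δ : ℕ} (ha : a < N) (h1 : p ≤ δ) (h2 : δ + p ≤ N) (hp : 1 ≤ p) :
    Far p N a ((a + δ) % N) := by
  unfold Far
  rcases lt_or_ge (a + δ) N with h | h
  · rw [Nat.mod_eq_of_lt h]
    have e1 : |(a : ℤ) - ((a + δ : ℕ) : ℤ)| = δ := by
      rw [abs_sub_comm, abs_of_nonneg (by push_cast; omega)]
      push_cast
      ring
    rw [e1]
    constructor <;> omega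
  · have e0 : (a + δ) % N = a + δ - N := by
      rw [Nat.mod_eq_sub_mod h, Nat.mod_eq_of_lt (by omega)]
    rw [e0]
    have e1 : |(a : ℤ) - ((a + δ - N : ℕ) : ℤ)| = (N : ℤ) - δ := by
      rw [Nat.cast_sub h, abs_of_nonneg (by push_cast; omega)]
      push_cast
      ring
    rw [e1]
    constructor <;> omega

theorem mod_inj {N s a b : ℕ} (ha : s ≤ a) (hb : s ≤ b) (ha' : a < s + N) (hb' : b < s + N)
    (h : a % N = b % N) : a = b := by
  wlog hab : a ≤ b generalizing a b
  · exact (this hb ha hb' ha' h.symm (le_of_not_ge hab)).symm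
  have h1 : N ∣ b - a := (Nat.modEq_iff_dvd' hab).1 h
  by_contra hne
  have h2 := Nat.le_of_dvd (by omega) h1
  omega

/-- Distinct labels around `s`. -/
theorem far_window {p N D s i : ℕ} (hN : N = D + 2 * p) (hp : 1 ≤ p) (hi : i ≤ D) :
    Far p N ((s + N - p) % N) ((s + i) % N) := by
  have hN0 : 0 < N := by omega
  have e1 : (s + i) % N = ((s + N - p) % N + (p + i)) % N := by
    rw [Nat.mod_add_mod]
    rw [show s + N - p + (p + i) = s + i + N by omega]
    simp
  rw [e1]
  exact far_of_mod (Nat.mod_lt _ hN0) (by omega) (by omega) hp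

/-- The labelling in windows. -/
theorem windows {V : Type} [Fintype V] (G : SimpleGraph V) (p D : ℕ) (hp : 1 ≤ p) (T : Set V)
    (hT : ∀ v ∈ T, (G.neighborSet v ∩ Tᶜ).ncard + T.ncard ≤ D + 1)
    (hW : ∀ v, v ∉ T → (G.neighborSet v ∩ Tᶜ).Nonempty →
      2 * p * (G.neighborSet v).ncard < D + 2 * p) : Circ G p (D + 2 * p) := by
  classical
  set N := D + 2 * p with hN
  have hN0 : 0 < N := by omega
  set T' : Finset V := univ.filter (fun v => v ∈ T) with hT'
  have hTT : ∀ v, v ∈ T' ↔ v ∈ T := by
    intro v
    simp [hT']
  set k := T.ncard with hk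
  have hk' : T'.card = k := by
    rw [hk, ← Set.ncard_coe_finset]
    congr 1
    ext v
    simp [hT']
  -- positions
  obtain ⟨x, hxk, hxinj⟩ : ∃ x : V → ℕ, (∀ v ∈ T, x v < k) ∧
      (∀ u ∈ T', ∀ v ∈ T', x u = x v → u = v) := by
    refine ⟨fun v => if h : v ∈ T' then (T'.equivFin ⟨v, h⟩).val else 0, ?_, ?_⟩
    · intro v hv
      have h : v ∈ T' := (hTT v).2 hv
      simp only [dif_pos h]
      rw [← hk']
      exact (T'.equivFin ⟨v, h⟩).isLt
    · intro u hu v hv he
      simp only [dif_pos hu, dif_pos hv] at he
      have h1 := T'.equivFin.injective (Fin.ext he)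
      exact congrArg Subtype.val h1
  set O : V → Finset V := fun v => univ.filter (fun w => G.Adj v w ∧ w ∉ T) with hO
  have hOm : ∀ v w, w ∈ O v ↔ G.Adj v w ∧ w ∉ T := by
    intro v w
    simp [hO]
  have hOcard : ∀ v, (O v).card = (G.neighborSet v ∩ Tᶜ).ncard := by
    intro v
    rw [← Set.ncard_coe_finset]
    congr 1
    ext w
    simp [hO]
  obtain ⟨c, c1, c2, c3⟩ := sched O x T' hxinj
  have hOk : ∀ v ∈ T, (O v).card + k ≤ D + 1 := by
    intro v hv
    rw [hOcard]
    exact hT v hv
  -- the label of an edge before reduction mod `N`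
  set r : V → V → ℕ := fun u v =>
    if u ∈ T then (if v ∈ T then x u + x v else k + c u v)
    else (if v ∈ T then k + c v u else 0) with hr
  have hrs : ∀ u v, r u v = r v u := by
    intro u v
    simp only [hr]
    by_cases hu : u ∈ T <;> by_cases hv : v ∈ T <;> simp [hu, hv, add_comm]
  -- labels at a vertex of `T`
  have hrT : ∀ u ∈ T, ∀ v, G.Adj u v → x u ≤ r u v ∧ r u v ≤ x u + D := by
    intro u hu v huv
    have e1 := hxk u hu
    have e2 := hOk u hu
    by_cases hv : v ∈ T
    · have e3 := hxk v hv
      simp only [hr, if_pos hu, if_pos hv]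
      omega
    · have e3 := c1 u ((hTT u).2 hu) v ((hOm u v).2 ⟨huv, hv⟩)
      simp only [hr, if_pos hu, if_neg hv]
      omega
  have hrTinj : ∀ u ∈ T, ∀ v w, G.Adj u v → G.Adj u w → r u v = r u w → v = w := by
    intro u hu v w huv huw he
    have e1 := hxk u hu
    by_cases hv : v ∈ T
    · by_cases hw : w ∈ T
      · simp only [hr, if_pos hu, if_pos hv, if_pos hw] at he
        exact hxinj v ((hTT v).2 hv) w ((hTT w).2 hw) (by omega)
      · have e3 := c1 u ((hTT u).2 hu) w ((hOm u w).2 ⟨huw, hw⟩)
        have e4 := hxk v hv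
        simp only [hr, if_pos hu, if_pos hv, if_neg hw] at he
        omega
    · by_cases hw : w ∈ T
      · have e3 := c1 u ((hTT u).2 hu) v ((hOm u v).2 ⟨huv, hv⟩)
        have e4 := hxk w hw
        simp only [hr, if_pos hu, if_neg hv, if_pos hw] at he
        omega
      · simp only [hr, if_pos hu, if_neg hv, if_neg hw] at he
        exact c2 u ((hTT u).2 hu) v ((hOm u v).2 ⟨huv, hv⟩) w ((hOm u w).2 ⟨huw, hw⟩) (by omega)
  -- labels at a vertex outside `T`
  have hrO : ∀ u, u ∉ T → ∀ v ∈ T, G.Adj u v → k ≤ r u v ∧ r u v < k + D := by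
    intro u hu v hv huv
    have e1 := hxk v hv
    have e2 := hOk v hv
    have e3 := c1 v ((hTT v).2 hv) u ((hOm v u).2 ⟨huv.symm, hu⟩)
    simp only [hr, if_neg hu, if_pos hv]
    omega
  have hrOinj : ∀ u, u ∉ T → ∀ v ∈ T, ∀ w ∈ T, G.Adj u v → G.Adj u w → r u v = r u w →
      v = w := by
    intro u hu v hv w hw huv huw he
    simp only [hr, if_neg hu, if_pos hv, if_pos hw] at he
    exact c3 v ((hTT v).2 hv) w ((hTT w).2 hw) u ((hOm v u).2 ⟨huv.symm, hu⟩)
      ((hOm w u).2 ⟨huw.symm, hu⟩) (by omega)
  have hkD : ∀ v ∈ T, k ≤ D + 1 := by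
    intro v hv
    have := hOk v hv
    omega
  let B : SimpleGraph V :=
    { Adj := fun a b => G.Adj a b ∧ (a ∈ T ∨ b ∈ T)
      symm := ⟨fun a b h => ⟨h.1.symm, h.2.symm⟩⟩
      loopless := ⟨fun a h => G.loopless.irrefl a h.1⟩ }
  let fE : Sym2 V → ℕ := Sym2.lift ⟨fun u v => r u v % N, fun u v => by
    show r u v % N = r v u % N
    rw [hrs u v]⟩
  let fV : V → ℕ := fun v => if v ∈ T then (x v + N - p) % N else (k + N - p) % N
  have hfE : ∀ u v, fE s(u, v) = r u v % N := fun u v => rfl
  -- a vertex outside `T` of large degree has all its neighbours in `T`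
  have hlarge : ∀ v, v ∉ T → N ≤ 2 * p * (G.neighborSet v).ncard → ∀ w, G.Adj v w → w ∈ T := by
    intro v hv hdeg w hvw
    by_contra hw
    have := hW v hv ⟨w, hvw, hw⟩
    omega
  apply complete G B p N hp T (fun u v => Iff.rfl) hW fV fE
  · intro v _
    by_cases hv : v ∈ T
    · simp only [fV, if_pos hv]
      exact Nat.mod_lt _ hN0
    · simp only [fV, if_neg hv]
      exact Nat.mod_lt _ hN0
  · intro u v _
    rw [hfE]
    exact Nat.mod_lt _ hN0
  · intro u v hu hv huv
    by_cases hu' : u ∈ T
    · have e0 := hkD u hu'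
      have e1 := hxk u hu'
      by_cases hv' : v ∈ T
      · have e2 := hxk v hv'
        simp only [fV, if_pos hu', if_pos hv']
        intro he
        have e3 := mod_inj (s := N - p) (by omega) (by omega) (by omega) (by omega) he
        have e4 := hxinj u ((hTT u).2 hu') v ((hTT v).2 hv') (by omega)
        exact huv.ne e4
      · simp only [fV, if_pos hu', if_neg hv']
        intro he
        have e3 := mod_inj (s := N - p) (by omega) (by omega) (by omega) (by omega) he
        omega
    · by_cases hv' : v ∈ T
      · have e0 := hkD v hv'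
        have e1 := hxk v hv'
        simp only [fV, if_neg hu', if_pos hv']
        intro he
        have e3 := mod_inj (s := N - p) (by omega) (by omega) (by omega) (by omega) he
        omega
      · exact absurd (hlarge u hu' (hu.resolve_left hu') v huv) hv'
  · intro u v w huv huw hvw
    rw [hfE, hfE]
    intro he
    apply hvw
    by_cases hu : u ∈ T
    · have e1 := hrT u hu v huv.1
      have e2 := hrT u hu w huw.1
      exact hrTinj u hu v w huv.1 huw.1
        (mod_inj (s := x u) e1.1 e2.1 (by omega) (by omega) he)
    · have hv : v ∈ T := huv.2.resolve_left hu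
      have hw : w ∈ T := huw.2.resolve_left hu
      have e1 := hrO u hu v hv huv.1
      have e2 := hrO u hu w hw huw.1
      exact hrOinj u hu v hv w hw huv.1 huw.1
        (mod_inj (s := k) e1.1 e2.1 (by omega) (by omega) he)
  · intro u v hu huv
    rw [hfE]
    by_cases hu' : u ∈ T
    · have e1 := hrT u hu' v huv.1
      simp only [fV, if_pos hu']
      obtain ⟨i, hi⟩ : ∃ i, r u v = x u + i := ⟨r u v - x u, by omega⟩
      rw [hi]
      exact far_window hN hp (by omega)
    · have hv : v ∈ T := huv.2.resolve_left hu'
      have e1 := hrO u hu' v hv huv.1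
      simp only [fV, if_neg hu']
      obtain ⟨i, hi⟩ : ∃ i, r u v = k + i := ⟨r u v - k, by omega⟩
      rw [hi]
      exact far_window hN hp (by omega)

end Pool.Agent.H8.HY
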